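import Pool.Agent.H49.LM.Core

/-!
# Partial quotients of almost all multiples of an algebraic number: the average
-/

set_option autoImplicit false

namespace Pool.Agent.H49.LM

open Finset Filter

open Classical in
/-- almost all multiples satisfy the two bounds of `sum_of_bounds` -/
theorem core (ξ : ℝ) (hroth : ∀ τ : ℝ, 0 < τ → ∃ c : ℝ, 0 < c ∧ ∀ q : ℕ, 1 ≤ q → ∀ p : ℤ,
      c ≤ (q : ℝ) ^ (1 + τ) * |q * ξ - p|) (κ η : ℝ) (hκ0 : 0 < κ) (hκ : κ < 1) (hη : 0 < η) :
    ∃ K C1 : ℝ, 0 < K ∧ 0 < C1 ∧ ∃ N0 : ℕ, ∀ N : ℕ, N0 ≤ N →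
      (((range N).filter (fun m : ℕ => ¬ ((∀ q ∈ Icc 1 ⌊(N : ℝ) ^ κ⌋₊, ∀ p : ℤ,
        1 / (K * q * Real.log ((q : ℝ) + 1) ^ 2) < |(q : ℝ) * (((m : ℝ) + 1) * ξ) - p|) ∧
        ∑ q ∈ Icc 1 ⌊(N : ℝ) ^ κ⌋₊,
          (G ⌈K * Real.log ((q : ℝ) + 1) ^ 2⌉₊ q (((m : ℝ) + 1) * ξ) : ℝ) /
          Real.log ((q : ℝ) + 1) ^ ((4 : ℝ) / 3) ≤ C1))).card : ℝ) ≤ η * N := by
  have hlog2 : 0 < Real.log 2 := Real.log_pos (by norm_num)
  obtain ⟨Z2, hZ20, hZ2⟩ := log_series' 1 one_pos
  obtain ⟨Z7, hZ70, hZ7⟩ := log_series' (1 / 6) (by norm_num)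
  set K : ℝ := 16 * (Z2 + 1) / η with hK
  have hK0 : 0 < K := by positivity
  obtain ⟨A, hA0, hA⟩ := log_ceil K hK0
  set ℓ : ℝ := 1 / Real.log 2 ^ ((4 : ℝ) / 3) with hℓ
  have hℓ0 : 0 < ℓ := by positivity
  set P : ℝ := 6 * A * ℓ + 24 / η with hP
  have hP0 : 0 < P := by positivity
  obtain ⟨N0, hN0⟩ := params ξ hroth κ P hκ0 hκ hP0
  set C1 : ℝ := (4 * A * Z7 + 1) * (2 / η) with hC1
  have hC10 : 0 < C1 := by positivity
  refine ⟨K, C1, hK0, hC10, N0, fun N hN => ?_⟩
  obtain ⟨hN1, hMN, r, hr, hR⟩ := hN0 N hN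
  have hNR1 : (1 : ℝ) ≤ N := by exact_mod_cast hN1
  have hNR0 : (0 : ℝ) < N := by linarith
  have hlogN : 0 ≤ Real.log (N : ℝ) := Real.log_nonneg hNR1
  set M : ℕ := ⌊(N : ℝ) ^ κ⌋₊ with hM
  set R : ℝ := ∑ q ∈ Icc 1 M, 1 / ((r q).den : ℝ) with hRdef
  have hR0 : 0 ≤ R := sum_nonneg fun q _ => by positivity
  set Λ : ℝ := (1 + 2 * Real.log N) ^ 2 with hΛ
  have hΛ1 : 1 ≤ Λ := by
    rw [hΛ]
    nlinarith
  set L : ℕ → ℝ := fun q => Real.log ((q : ℝ) + 1) with hL
  have hLlow : ∀ q : ℕ, 1 ≤ q → Real.log 2 ≤ L q := by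
    intro q hq
    have : (1 : ℝ) ≤ q := by exact_mod_cast hq
    exact Real.log_le_log (by norm_num) (by linarith)
  set S : ℕ → ℝ → Finset ℕ := fun q δ => (range N).filter
    (fun m : ℕ => ∃ p : ℤ, |(q : ℝ) * (((m : ℝ) + 1) * ξ) - p| ≤ δ) with hS
  have hScard : ∀ (q : ℕ) (δ : ℝ), 0 ≤ δ →
      ((S q δ).card : ℝ) ≤ 4 * N * δ + 6 * ((N : ℝ) / (r q).den) := by
    intro q δ hδ
    apply count_one ((q : ℝ) * ξ) (q * ξ) δ hδ N hN1 (r q) (hr q).1 (hr q).2 (S q δ)
    intro m hm
    rw [hS] at hm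
    simp only [mem_filter, mem_range] at hm
    obtain ⟨hmN, p, hp⟩ := hm
    refine ⟨hmN, p, ?_⟩
    have e1 : (m : ℝ) * ((q : ℝ) * ξ) + q * ξ - p = (q : ℝ) * (((m : ℝ) + 1) * ξ) - p := by ring
    rw [e1]
    exact hp
  set bad1 : Finset ℕ := (Icc 1 M).biUnion (fun q => S q (1 / (K * q * L q ^ 2))) with hbad1
  set W : ℕ → ℝ := fun m => ∑ q ∈ Icc 1 M,
    (G ⌈K * L q ^ 2⌉₊ q (((m : ℝ) + 1) * ξ) : ℝ) / L q ^ ((4 : ℝ) / 3) with hW
  set bad2 : Finset ℕ := (range N).filter (fun m => C1 < W m) with hbad2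
  have hsub : (range N).filter (fun m : ℕ => ¬ ((∀ q ∈ Icc 1 M, ∀ p : ℤ,
        1 / (K * q * Real.log ((q : ℝ) + 1) ^ 2) < |(q : ℝ) * (((m : ℝ) + 1) * ξ) - p|) ∧
        ∑ q ∈ Icc 1 M,
          (G ⌈K * Real.log ((q : ℝ) + 1) ^ 2⌉₊ q (((m : ℝ) + 1) * ξ) : ℝ) /
          Real.log ((q : ℝ) + 1) ^ ((4 : ℝ) / 3) ≤ C1)) ⊆ bad1 ∪ bad2 := by
    intro m hm
    rw [mem_filter] at hm
    obtain ⟨hmN, hnot⟩ := hm
    rw [mem_union]
    by_cases h1 : ∀ q ∈ Icc 1 M, ∀ p : ℤ,
        1 / (K * q * Real.log ((q : ℝ) + 1) ^ 2) < |(q : ℝ) * (((m : ℝ) + 1) * ξ) - p|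
    · right
      rw [hbad2, mem_filter]
      refine ⟨hmN, ?_⟩
      by_contra h2
      exact hnot ⟨h1, not_lt.1 h2⟩
    · left
      push Not at h1
      obtain ⟨q, hq, p, hp⟩ := h1
      rw [hbad1, mem_biUnion]
      refine ⟨q, hq, ?_⟩
      rw [hS]
      simp only [mem_filter]
      exact ⟨hmN, p, hp⟩
  -- the first exceptional set
  have hR1 : 6 * R ≤ η / 4 := by
    have h1 : P * Λ * R ≤ 1 := hR
    have h2 : 24 / η * R ≤ 1 := by
      calc 24 / η * R ≤ P * R := by
            apply mul_le_mul_of_nonneg_right _ hR0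
            rw [hP]
            have : 0 ≤ 6 * A * ℓ := by positivity
            linarith
        _ ≤ P * Λ * R := by
            apply mul_le_mul_of_nonneg_right _ hR0
            nlinarith
        _ ≤ 1 := h1
    rw [div_mul_eq_mul_div, div_le_iff₀ hη] at h2
    linarith
  have hb1 : (bad1.card : ℝ) ≤ η / 2 * N := by
    calc (bad1.card : ℝ) ≤ ((∑ q ∈ Icc 1 M, (S q (1 / (K * q * L q ^ 2))).card : ℕ) : ℝ) := by
          exact_mod_cast card_biUnion_le
      _ = ∑ q ∈ Icc 1 M, ((S q (1 / (K * q * L q ^ 2))).card : ℝ) := by push_cast; rfl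
      _ ≤ ∑ q ∈ Icc 1 M, (4 * N * (1 / (K * q * L q ^ 2)) + 6 * ((N : ℝ) / (r q).den)) := by
          apply sum_le_sum
          intro q hq
          apply hScard
          positivity
      _ = 4 * N / K * ∑ q ∈ Icc 1 M, 1 / ((q : ℝ) * Real.log ((q : ℝ) + 1) ^ ((1 : ℝ) + 1)) +
          N * (6 * R) := by
          rw [sum_add_distrib, mul_sum, hRdef, mul_sum, mul_sum]
          congr 1
          · apply sum_congr rfl
            intro q hq
            rw [show ((1 : ℝ) + 1) = ((2 : ℕ) : ℝ) by norm_num, Real.rpow_natCast]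
            show 4 * N * (1 / (K * q * Real.log ((q : ℝ) + 1) ^ 2)) = _
            rw [mul_one_div, mul_one_div, div_div, ← mul_assoc]
          · apply sum_congr rfl
            intro q _
            ring
      _ ≤ 4 * N / K * Z2 + N * (η / 4) := by
          apply add_le_add
          · exact mul_le_mul_of_nonneg_left (hZ2 M) (by positivity)
          · exact mul_le_mul_of_nonneg_left hR1 hNR0.le
      _ ≤ N * (η / 4) + N * (η / 4) := by
          have h1 : 4 * (N : ℝ) / K * Z2 ≤ N * (η / 4) := by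
            have h2 : 4 * (N : ℝ) / K * Z2 = N * (η / 4) * (Z2 / (Z2 + 1)) := by
              rw [hK]
              field_simp
              norm_num
            rw [h2]
            apply mul_le_of_le_one_right (by positivity)
            rw [div_le_one (by positivity)]
            linarith
          linarith
      _ = η / 2 * N := by ring
  -- the second exceptional set
  have hGsum : ∀ q ∈ Icc 1 M, ∑ m ∈ range N, (G ⌈K * L q ^ 2⌉₊ q (((m : ℝ) + 1) * ξ) : ℝ) ≤
      4 * N / q * (A * L q ^ ((1 : ℝ) / 6)) + 6 * N * (A * L q ^ 2) * (1 / ((r q).den : ℝ)) := by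
    intro q hq
    rw [mem_Icc] at hq
    have hq0 : (0 : ℝ) < q := by exact_mod_cast hq.1
    set T : ℕ := ⌈K * L q ^ 2⌉₊ with hT
    have hAq := hA (L q) (hLlow q hq.1)
    have e1 : ∀ m : ℕ, (G T q (((m : ℝ) + 1) * ξ) : ℝ) = ∑ t ∈ Icc 1 T,
        (if (∃ p : ℤ, |(q : ℝ) * (((m : ℝ) + 1) * ξ) - p| ≤ 1 / ((q : ℝ) * t)) then (1 : ℝ)
          else 0) := by
      intro m
      rw [G, sum_boole]
    have e2 : ∀ t : ℕ, ∑ m ∈ range N,
        (if (∃ p : ℤ, |(q : ℝ) * (((m : ℝ) + 1) * ξ) - p| ≤ 1 / ((q : ℝ) * t)) then (1 : ℝ)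
          else 0) = ((S q (1 / ((q : ℝ) * t))).card : ℝ) := by
      intro t
      rw [sum_boole]
    calc ∑ m ∈ range N, (G T q (((m : ℝ) + 1) * ξ) : ℝ)
        = ∑ t ∈ Icc 1 T, ((S q (1 / ((q : ℝ) * t))).card : ℝ) := by
          rw [sum_congr rfl (fun m _ => e1 m), sum_comm]
          exact sum_congr rfl fun t _ => e2 t
      _ ≤ ∑ t ∈ Icc 1 T, (4 * N * (1 / ((q : ℝ) * t)) + 6 * ((N : ℝ) / (r q).den)) :=
          sum_le_sum fun t _ => hScard q _ (by positivity)
      _ = 4 * N / q * ∑ t ∈ Icc 1 T, ((t : ℝ))⁻¹ + 6 * N * T * (1 / ((r q).den : ℝ)) := by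
          rw [sum_add_distrib, sum_const, Nat.card_Icc, Nat.add_sub_cancel, nsmul_eq_mul, mul_sum]
          congr 1
          · apply sum_congr rfl
            intro t _
            rw [one_div, mul_inv]
            ring
          · ring
      _ ≤ 4 * N / q * (1 + Real.log T) + 6 * N * T * (1 / ((r q).den : ℝ)) := by
          have h1 := harmonic_le_one_add_log T
          rw [harmonic_eq_sum_Icc] at h1
          push_cast at h1
          have := mul_le_mul_of_nonneg_left h1 (show 0 ≤ 4 * (N : ℝ) / q by positivity)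
          linarith
      _ ≤ 4 * N / q * (A * L q ^ ((1 : ℝ) / 6)) +
          6 * N * (A * L q ^ 2) * (1 / ((r q).den : ℝ)) := by
          apply add_le_add
          · exact mul_le_mul_of_nonneg_left hAq.1 (by positivity)
          · apply mul_le_mul_of_nonneg_right _ (by positivity)
            exact mul_le_mul_of_nonneg_left hAq.2 (by positivity)
  have hWsum : ∑ m ∈ range N, W m ≤ (4 * A * Z7 + 1) * N := by
    calc ∑ m ∈ range N, W m = ∑ q ∈ Icc 1 M,
          (∑ m ∈ range N, (G ⌈K * L q ^ 2⌉₊ q (((m : ℝ) + 1) * ξ) : ℝ)) /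
            L q ^ ((4 : ℝ) / 3) := by
          rw [hW]
          simp only
          rw [sum_comm]
          exact sum_congr rfl fun q _ => (sum_div _ _ _).symm
      _ ≤ ∑ q ∈ Icc 1 M, (4 * A * N * (1 / ((q : ℝ) * Real.log ((q : ℝ) + 1) ^ (1 + (1 : ℝ) / 6))) +
          6 * A * ℓ * Λ * N * (1 / ((r q).den : ℝ))) := by
          apply sum_le_sum
          intro q hq
          have hG := hGsum q hq
          rw [mem_Icc] at hq
          have hq0 : (0 : ℝ) < q := by exact_mod_cast hq.1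
          have hLq := hLlow q hq.1
          have hLq0 : 0 < L q := lt_of_lt_of_le hlog2 hLq
          have hL43 : 0 < L q ^ ((4 : ℝ) / 3) := by positivity
          have hLN : L q ≤ 1 + 2 * Real.log N := by
            have h1 : (q : ℝ) + 1 ≤ 2 * N := by
              have : (q : ℝ) ≤ N := by exact_mod_cast hq.2.trans hMN
              linarith
            have h2 : Real.log ((q : ℝ) + 1) ≤ Real.log (2 * N) :=
              Real.log_le_log (by positivity) h1
            rw [Real.log_mul (by norm_num) hNR0.ne'] at h2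
            have h3 : Real.log 2 ≤ 1 := by
              have := Real.log_le_sub_one_of_pos (show (0 : ℝ) < 2 by norm_num)
              linarith
            show Real.log ((q : ℝ) + 1) ≤ _
            linarith
          have hL2 : L q ^ 2 ≤ Λ := by
            rw [hΛ]
            exact pow_le_pow_left₀ hLq0.le hLN 2
          have hinv : (L q ^ ((4 : ℝ) / 3))⁻¹ ≤ ℓ := by
            rw [hℓ, ← one_div]
            apply one_div_le_one_div_of_le (by positivity)
            exact Real.rpow_le_rpow hlog2.le hLq (by norm_num)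
          have e3 : L q ^ ((1 : ℝ) / 6) / L q ^ ((4 : ℝ) / 3) =
              1 / Real.log ((q : ℝ) + 1) ^ (1 + (1 : ℝ) / 6) := by
            show L q ^ ((1 : ℝ) / 6) / L q ^ ((4 : ℝ) / 3) = 1 / L q ^ (1 + (1 : ℝ) / 6)
            have h43 : (4 : ℝ) / 3 = 1 / 6 + (1 + 1 / 6) := by norm_num
            rw [h43, Real.rpow_add hLq0]
            have hne : L q ^ ((1 : ℝ) / 6) ≠ 0 := (Real.rpow_pos_of_pos hLq0 _).ne'
            have hne2 : L q ^ ((1 : ℝ) + 1 / 6) ≠ 0 := (Real.rpow_pos_of_pos hLq0 _).ne'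
            rw [div_eq_div_iff (mul_ne_zero hne hne2) hne2]
            ring
          calc (∑ m ∈ range N, (G ⌈K * L q ^ 2⌉₊ q (((m : ℝ) + 1) * ξ) : ℝ)) / L q ^ ((4 : ℝ) / 3)
              ≤ (4 * N / q * (A * L q ^ ((1 : ℝ) / 6)) +
                6 * N * (A * L q ^ 2) * (1 / ((r q).den : ℝ))) / L q ^ ((4 : ℝ) / 3) :=
                div_le_div_of_nonneg_right hG hL43.le
            _ = 4 * A * N * (1 / q) * (L q ^ ((1 : ℝ) / 6) / L q ^ ((4 : ℝ) / 3)) +
                6 * A * N * (1 / ((r q).den : ℝ)) * (L q ^ 2 * (L q ^ ((4 : ℝ) / 3))⁻¹) := by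
                ring
            _ ≤ 4 * A * N * (1 / q) * (L q ^ ((1 : ℝ) / 6) / L q ^ ((4 : ℝ) / 3)) +
                6 * A * N * (1 / ((r q).den : ℝ)) * (Λ * ℓ) := by
                apply add_le_add le_rfl
                apply mul_le_mul_of_nonneg_left _ (by positivity)
                apply mul_le_mul hL2 hinv (by positivity) (by positivity)
            _ = _ := by
                rw [e3]
                have e4 : (1 : ℝ) / q * (1 / Real.log ((q : ℝ) + 1) ^ (1 + (1 : ℝ) / 6)) =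
                    1 / ((q : ℝ) * Real.log ((q : ℝ) + 1) ^ (1 + (1 : ℝ) / 6)) := by
                  rw [one_div_mul_one_div]
                rw [← e4]
                ring
      _ = 4 * A * N * ∑ q ∈ Icc 1 M, 1 / ((q : ℝ) * Real.log ((q : ℝ) + 1) ^ (1 + (1 : ℝ) / 6)) +
          N * (6 * A * ℓ * Λ * R) := by
          rw [sum_add_distrib, ← mul_sum, ← mul_sum]
          ring
      _ ≤ 4 * A * N * Z7 + N * 1 := by
          apply add_le_add
          · exact mul_le_mul_of_nonneg_left (hZ7 M) (by positivity)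
          · apply mul_le_mul_of_nonneg_left _ hNR0.le
            calc 6 * A * ℓ * Λ * R ≤ P * Λ * R := by
                  apply mul_le_mul_of_nonneg_right _ hR0
                  apply mul_le_mul_of_nonneg_right _ (by linarith)
                  rw [hP]
                  have : 0 < 24 / η := by positivity
                  linarith
              _ ≤ 1 := hR
      _ = (4 * A * Z7 + 1) * N := by ring
  have hb2 : (bad2.card : ℝ) ≤ η / 2 * N := by
    have hWnn : ∀ m, 0 ≤ W m := by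
      intro m
      apply sum_nonneg
      intro q _
      have : 0 ≤ L q := Real.log_nonneg (by
        have : (0 : ℝ) ≤ q := Nat.cast_nonneg q
        linarith)
      positivity
    have h1 : C1 * bad2.card ≤ ∑ m ∈ range N, W m := by
      calc C1 * bad2.card = ∑ m ∈ bad2, C1 := by
            rw [sum_const, nsmul_eq_mul, mul_comm]
        _ ≤ ∑ m ∈ bad2, W m := by
            apply sum_le_sum
            intro m hm
            rw [hbad2, mem_filter] at hm
            exact hm.2.le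
        _ ≤ ∑ m ∈ range N, W m :=
            sum_le_sum_of_subset_of_nonneg (filter_subset _ _) fun m _ _ => hWnn m
    have h2 := h1.trans hWsum
    rw [hC1] at h2
    have h3 : 0 < 4 * A * Z7 + 1 := by positivity
    have h4 : (4 * A * Z7 + 1) * (2 / η * bad2.card) ≤ (4 * A * Z7 + 1) * N := by
      calc (4 * A * Z7 + 1) * (2 / η * bad2.card) = (4 * A * Z7 + 1) * (2 / η) * bad2.card := by ring
        _ ≤ _ := h2
    have h5 := le_of_mul_le_mul_left h4 h3
    rw [div_mul_eq_mul_div, div_le_iff₀ hη] at h5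
    linarith
  calc _ ≤ ((bad1 ∪ bad2).card : ℝ) := by exact_mod_cast card_le_card hsub
    _ ≤ (bad1.card : ℝ) + bad2.card := by exact_mod_cast card_union_le _ _
    _ ≤ η / 2 * N + η / 2 * N := add_le_add hb1 hb2
    _ = η * N := by ring

end Pool.Agent.H49.LM
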