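import Mathlib

/-!
# Multiples and translates of an algebraic number: counting lemmas

`count_one`: the number of `m < N` for which `m θ + β` is within `δ` of an integer, in terms of the
denominator of a Dirichlet approximation of `θ`. `den_sum`: the sum of the reciprocals of these
denominators for `θ = q ξ`, `q ≤ M`, is small by Roth's theorem and the divisor bound.
-/

set_option autoImplicit false

namespace Pool.Agent.H49.LM

open Finset Filter

theorem count_one (θ β δ : ℝ) (hδ : 0 ≤ δ) (N : ℕ) (hN : 1 ≤ N) (r : ℚ)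
    (happ : |θ - r| ≤ 1 / (((N : ℝ) + 1) * r.den)) (hden : r.den ≤ N) (S : Finset ℕ)
    (hS : ∀ m ∈ S, m < N ∧ ∃ p : ℤ, |(m : ℝ) * θ + β - p| ≤ δ) :
    (S.card : ℝ) ≤ 4 * N * δ + 6 * ((N : ℝ) / r.den) := by
  classical
  have hd0 : 0 < r.den := r.pos
  have hd0' : (0 : ℝ) < r.den := by exact_mod_cast hd0
  have hN0 : (0 : ℝ) < N := by exact_mod_cast hN
  have hex : ∀ m : ℕ, ∃ p : ℤ, m ∈ S → |(m : ℝ) * θ + β - p| ≤ δ := by
    intro m
    by_cases hm : m ∈ S
    · obtain ⟨p, hp⟩ := (hS m hm).2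
      exact ⟨p, fun _ => hp⟩
    · exact ⟨0, fun h => absurd h hm⟩
  choose p hp using hex
  set d : ℕ := r.den with hd
  set s : ℤ := r.num with hs
  have hr : (r : ℝ) = (s : ℝ) / d := by
    rw [Rat.cast_def]
  set t : ℕ → ℤ := fun m => (m : ℤ) * s - (d : ℤ) * p m with ht
  set a : ℤ := ⌈-(d : ℝ) * β - d * δ - 1⌉ with ha
  set b : ℤ := ⌊-(d : ℝ) * β + d * δ + 1⌋ with hb
  have ht1 : ∀ m ∈ S, t m ∈ Icc a b := by
    intro m hm
    have h1 := hp m hm
    have hmN : (m : ℝ) < N := by exact_mod_cast (hS m hm).1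
    have hm0 : (0 : ℝ) ≤ m := Nat.cast_nonneg m
    have h2 : |(t m : ℝ) + d * β| ≤ d * δ + 1 := by
      have e1 : (t m : ℝ) + d * β = d * ((m : ℝ) * θ + β - p m) - m * (d * (θ - r)) := by
        rw [ht, hr]
        push_cast
        field_simp
        ring
      rw [e1]
      have h3 : |(d : ℝ) * ((m : ℝ) * θ + β - p m)| ≤ d * δ := by
        rw [abs_mul, abs_of_pos hd0']
        exact mul_le_mul_of_nonneg_left h1 hd0'.le
      have h4 : |(m : ℝ) * (d * (θ - r))| ≤ 1 := by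
        rw [abs_mul, abs_mul, abs_of_nonneg hm0, abs_of_pos hd0']
        calc (m : ℝ) * (d * |θ - r|) ≤ m * (d * (1 / (((N : ℝ) + 1) * d))) := by
              gcongr
          _ = m / ((N : ℝ) + 1) := by field_simp
          _ ≤ 1 := by
              rw [div_le_one (by positivity)]
              linarith
      calc _ ≤ |(d : ℝ) * ((m : ℝ) * θ + β - p m)| + |(m : ℝ) * (d * (θ - r))| := abs_sub _ _
        _ ≤ d * δ + 1 := by linarith
    rw [abs_le] at h2
    rw [mem_Icc, ha, hb, Int.ceil_le, Int.le_floor]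
    constructor <;> linarith [h2.1, h2.2]
  have hcard := Finset.card_le_card_of_injOn (s := S) (t := Icc a b ×ˢ range (N / d + 1))
    (fun m => (t m, m / d)) ?_ ?_
  · rw [card_product, card_range, Int.card_Icc] at hcard
    have h1 : (((b + 1 - a).toNat : ℕ) : ℝ) ≤ 2 * d * δ + 3 := by
      have h2 : (b : ℝ) ≤ -(d : ℝ) * β + d * δ + 1 := Int.floor_le _
      have h3 : -(d : ℝ) * β - d * δ - 1 ≤ (a : ℝ) := Int.le_ceil _
      rcases le_or_gt 0 (b + 1 - a) with h | h
      · have h4 : (((b + 1 - a).toNat : ℕ) : ℝ) = ((b + 1 - a : ℤ) : ℝ) := by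
          have : (((b + 1 - a).toNat : ℕ) : ℤ) = b + 1 - a := Int.toNat_of_nonneg h
          exact_mod_cast this
        rw [h4]
        push_cast
        linarith
      · rw [Int.toNat_of_nonpos h.le, Nat.cast_zero]
        positivity
    have h5 : ((N / d + 1 : ℕ) : ℝ) ≤ 2 * ((N : ℝ) / d) := by
      have h6 : ((N / d : ℕ) : ℝ) ≤ (N : ℝ) / d := Nat.cast_div_le
      have h7 : (1 : ℝ) ≤ (N : ℝ) / d := by
        rw [one_le_div hd0']
        exact_mod_cast hden
      push_cast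
      linarith
    calc (S.card : ℝ) ≤ (((b + 1 - a).toNat * (N / d + 1) : ℕ) : ℝ) := by exact_mod_cast hcard
      _ = (((b + 1 - a).toNat : ℕ) : ℝ) * ((N / d + 1 : ℕ) : ℝ) := by push_cast; ring
      _ ≤ (2 * d * δ + 3) * (2 * ((N : ℝ) / d)) := by
          apply mul_le_mul h1 h5 (by positivity) (by positivity)
      _ = 4 * N * δ + 6 * ((N : ℝ) / d) := by
          field_simp
          ring
  · intro m hm
    rw [Finset.mem_coe] at hm ⊢
    rw [mem_product, mem_range]
    refine ⟨ht1 m hm, ?_⟩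
    have h1 := (hS m hm).1
    have h2 : m / d ≤ N / d := Nat.div_le_div_right h1.le
    simp only
    omega
  · intro m hm m' hm' hmm
    rw [Finset.mem_coe] at hm hm'
    simp only [Prod.mk.injEq] at hmm
    obtain ⟨h1, h2⟩ := hmm
    have h3 : (d : ℤ) ∣ s * ((m : ℤ) - m') := by
      refine ⟨p m - p m', ?_⟩
      simp only [ht] at h1
      linear_combination h1
    have h4 : IsCoprime (d : ℤ) s := by
      have h5 := r.reduced
      rw [Int.isCoprime_iff_gcd_eq_one]
      rw [Nat.Coprime, Nat.gcd_comm] at h5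
      simpa [Int.gcd, hd, hs] using h5
    have h5 : (d : ℤ) ∣ (m : ℤ) - m' := h4.dvd_of_dvd_mul_left h3
    have h6 : (m' : ℕ) ≡ m [MOD d] := (Nat.modEq_iff_dvd).2 h5
    have h7 : m' % d = m % d := h6
    calc m = d * (m / d) + m % d := (Nat.div_add_mod m d).symm
      _ = d * (m' / d) + m' % d := by rw [h2, h7]
      _ = m' := Nat.div_add_mod m' d

theorem inv_sum (E : Finset ℕ) (G : ℝ) (X : ℕ) (hG : 1 ≤ G)
    (hE : ∀ n ∈ E, G < (n : ℝ) ∧ n ≤ X)
    (hsep : ∀ n ∈ E, ∀ n' ∈ E, n' < n → G < (n : ℝ) - n') :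
    ∑ n ∈ E, 1 / (n : ℝ) ≤ (1 + Real.log X) / G := by
  classical
  have hG0 : 0 < G := by linarith
  set φ : ℕ → ℕ := fun n => ⌊(n : ℝ) / G⌋₊ with hφ
  have hφ1 : ∀ n ∈ E, 1 ≤ φ n := by
    intro n hn
    rw [hφ]
    apply Nat.le_floor
    rw [Nat.cast_one, one_le_div hG0]
    exact (hE n hn).1.le
  have hφle : ∀ n : ℕ, (φ n : ℝ) ≤ (n : ℝ) / G := fun n => Nat.floor_le (by positivity)
  have hinj : Set.InjOn φ (E : Set ℕ) := by
    have key : ∀ n ∈ E, ∀ n' ∈ E, φ n = φ n' → ¬ n' < n := by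
      intro n hn n' hn' h hlt
      have h1 := hsep n hn n' hn' hlt
      have h2 := hφle n'
      have h3 : (n : ℝ) / G < φ n + 1 := Nat.lt_floor_add_one _
      rw [h] at h3
      have h4 : (n : ℝ) / G - n' / G < 1 := by linarith
      rw [← sub_div, div_lt_one hG0] at h4
      linarith
    intro n hn n' hn' h
    have h1 := key n hn n' hn' h
    have h2 := key n' hn' n hn h.symm
    omega
  calc ∑ n ∈ E, 1 / (n : ℝ) ≤ ∑ n ∈ E, 1 / G * ((φ n : ℕ) : ℝ)⁻¹ := by
        apply sum_le_sum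
        intro n hn
        have h1 : (1 : ℝ) ≤ (φ n : ℝ) := by exact_mod_cast hφ1 n hn
        have h2 := hφle n
        rw [le_div_iff₀ hG0] at h2
        rw [← one_div, one_div_mul_one_div]
        apply one_div_le_one_div_of_le (by positivity)
        linarith
    _ = ∑ j ∈ E.image φ, 1 / G * (j : ℝ)⁻¹ := by
        rw [sum_image hinj]
    _ ≤ ∑ j ∈ Icc 1 X, 1 / G * (j : ℝ)⁻¹ := by
        apply sum_le_sum_of_subset_of_nonneg
        · intro j hj
          rw [mem_image] at hj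
          obtain ⟨n, hn, rfl⟩ := hj
          rw [mem_Icc]
          refine ⟨hφ1 n hn, ?_⟩
          have h1 : (φ n : ℝ) ≤ X := by
            calc (φ n : ℝ) ≤ (n : ℝ) / G := hφle n
              _ ≤ n := div_le_self (Nat.cast_nonneg n) hG
              _ ≤ X := by exact_mod_cast (hE n hn).2
          exact_mod_cast h1
        · intro j _ _
          positivity
    _ = 1 / G * ((harmonic X : ℚ) : ℝ) := by
        rw [← mul_sum, harmonic_eq_sum_Icc]
        push_cast
        rfl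
    _ ≤ 1 / G * (1 + Real.log X) := by
        apply mul_le_mul_of_nonneg_left (harmonic_le_one_add_log X) (by positivity)
    _ = (1 + Real.log X) / G := by ring

theorem den_sum (ξ τ c Cd : ℝ) (hτ : 0 < τ) (hc : 0 < c) (hCd : 0 < Cd)
    (hroth : ∀ q : ℕ, 1 ≤ q → ∀ p : ℤ, c ≤ (q : ℝ) ^ (1 + τ) * |q * ξ - p|)
    (hdiv : ∀ n : ℕ, n ≠ 0 → ((n.divisors.card : ℕ) : ℝ) ≤ Cd * (n : ℝ) ^ τ)
    (N M : ℕ) (hN : 1 ≤ N) (hMN : M ≤ N) (hG : 1 ≤ (c * N / 2) ^ (1 / (1 + τ)))
    (r : ℕ → ℚ) (hr : ∀ q : ℕ, |(q : ℝ) * ξ - r q| ≤ 1 / (((N : ℝ) + 1) * (r q).den) ∧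
      (r q).den ≤ N) :
    ∑ q ∈ Icc 1 M, 1 / ((r q).den : ℝ) ≤
      M * (Cd * ((N : ℝ) ^ 2) ^ τ * ((1 + Real.log ((N : ℝ) ^ 2)) /
        (c * N / 2) ^ (1 / (1 + τ)))) := by
  classical
  have hN0 : (0 : ℝ) < N := by exact_mod_cast hN
  set G : ℝ := (c * N / 2) ^ (1 / (1 + τ)) with hGdef
  set E : Finset ℕ := (Icc 1 (N ^ 2)).filter
    (fun n : ℕ => ∃ l : ℤ, |(n : ℝ) * ξ - l| ≤ 1 / ((N : ℝ) + 1)) with hE
  set f : ℕ → ℕ := fun q => q * (r q).den with hf
  have hlow : ∀ n : ℕ, 1 ≤ n → ∀ l : ℤ, |(n : ℝ) * ξ - l| ≤ 2 / ((N : ℝ) + 1) → G < n := by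
    intro n hn l hl
    have hn0 : (0 : ℝ) < n := by exact_mod_cast hn
    have h1 := hroth n hn l
    have h2 : c ≤ (n : ℝ) ^ (1 + τ) * (2 / ((N : ℝ) + 1)) :=
      h1.trans (mul_le_mul_of_nonneg_left hl (by positivity))
    have h3 : c * N / 2 < (n : ℝ) ^ (1 + τ) := by
      rw [← mul_div_assoc, le_div_iff₀ (by positivity)] at h2
      linarith
    calc G < ((n : ℝ) ^ (1 + τ)) ^ (1 / (1 + τ)) :=
          Real.rpow_lt_rpow (by positivity) h3 (by positivity)
      _ = n := by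
          rw [← Real.rpow_mul hn0.le, mul_one_div_cancel (by linarith), Real.rpow_one]
  have hEG : ∀ n ∈ E, G < (n : ℝ) ∧ n ≤ N ^ 2 := by
    intro n hn
    rw [hE, mem_filter, mem_Icc] at hn
    obtain ⟨⟨h1, h2⟩, l, hl⟩ := hn
    refine ⟨hlow n h1 l (hl.trans ?_), h2⟩
    apply div_le_div_of_nonneg_right (by norm_num) (by positivity)
  have hsep : ∀ n ∈ E, ∀ n' ∈ E, n' < n → G < (n : ℝ) - n' := by
    intro n hn n' hn' hlt
    rw [hE, mem_filter, mem_Icc] at hn hn'
    obtain ⟨-, l, hl⟩ := hn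
    obtain ⟨-, l', hl'⟩ := hn'
    have h1 := hlow (n - n') (by omega) (l - l') (by
      have e : (((n - n' : ℕ) : ℝ)) * ξ - ((l - l' : ℤ) : ℝ) =
          ((n : ℝ) * ξ - l) - ((n' : ℝ) * ξ - l') := by
        rw [Nat.cast_sub hlt.le]
        push_cast
        ring
      rw [e]
      calc _ ≤ |(n : ℝ) * ξ - l| + |(n' : ℝ) * ξ - l'| := abs_sub _ _
        _ ≤ 1 / ((N : ℝ) + 1) + 1 / ((N : ℝ) + 1) := add_le_add hl hl'
        _ = 2 / ((N : ℝ) + 1) := by ring)
    rwa [Nat.cast_sub hlt.le] at h1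
  have hfE : ∀ q ∈ Icc 1 M, f q ∈ E := by
    intro q hq
    rw [mem_Icc] at hq
    have hdp : 0 < (r q).den := (r q).pos
    have hdp' : (0 : ℝ) < (r q).den := by exact_mod_cast hdp
    rw [hE, mem_filter, mem_Icc]
    refine ⟨⟨Nat.mul_pos hq.1 hdp, ?_⟩, (r q).num, ?_⟩
    · calc q * (r q).den ≤ N * N := Nat.mul_le_mul (hq.2.trans hMN) (hr q).2
        _ = N ^ 2 := by ring
    · have h1 := (hr q).1
      have e : ((f q : ℕ) : ℝ) * ξ - ((r q).num : ℝ) = (r q).den * ((q : ℝ) * ξ - r q) := by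
        have e2 : ((r q : ℚ) : ℝ) = ((r q).num : ℝ) / (r q).den := by rw [Rat.cast_def]
        rw [e2, hf]
        push_cast
        field_simp
      rw [e, abs_mul, abs_of_pos hdp']
      calc ((r q).den : ℝ) * |(q : ℝ) * ξ - r q| ≤
          (r q).den * (1 / (((N : ℝ) + 1) * (r q).den)) := mul_le_mul_of_nonneg_left h1 hdp'.le
        _ = 1 / ((N : ℝ) + 1) := by field_simp
  have hinv := inv_sum E G (N ^ 2) hG hEG hsep
  have hcast : (((N ^ 2 : ℕ) : ℝ)) = (N : ℝ) ^ 2 := by push_cast; ring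
  rw [hcast] at hinv
  have hlogN : 0 ≤ Real.log ((N : ℝ) ^ 2) := Real.log_nonneg (by
    have : (1 : ℝ) ≤ N := by exact_mod_cast hN
    nlinarith)
  calc ∑ q ∈ Icc 1 M, 1 / ((r q).den : ℝ)
      ≤ ∑ q ∈ Icc 1 M, (M : ℝ) * (1 / ((f q : ℕ) : ℝ)) := by
        apply sum_le_sum
        intro q hq
        rw [mem_Icc] at hq
        have hdp' : (0 : ℝ) < (r q).den := by exact_mod_cast (r q).pos
        have hq0 : (0 : ℝ) < q := by exact_mod_cast hq.1
        have hqM : (q : ℝ) ≤ M := by exact_mod_cast hq.2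
        rw [hf]
        push_cast
        rw [mul_one_div, div_le_div_iff₀ hdp' (by positivity)]
        nlinarith
    _ = M * ∑ q ∈ Icc 1 M, 1 / ((f q : ℕ) : ℝ) := by rw [mul_sum]
    _ = M * ∑ n ∈ E, ∑ q ∈ (Icc 1 M).filter (fun q => f q = n), 1 / ((f q : ℕ) : ℝ) := by
        rw [sum_fiberwise_of_maps_to hfE]
    _ ≤ M * ∑ n ∈ E, (Cd * ((N : ℝ) ^ 2) ^ τ) * (1 / (n : ℝ)) := by
        apply mul_le_mul_of_nonneg_left _ (Nat.cast_nonneg M)
        apply sum_le_sum
        intro n hn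
        have hn' := hEG n hn
        have hn1 : 1 ≤ n := by
          rw [hE, mem_filter, mem_Icc] at hn
          exact hn.1.1
        have hn0 : (0 : ℝ) < n := by exact_mod_cast hn1
        calc ∑ q ∈ (Icc 1 M).filter (fun q => f q = n), 1 / ((f q : ℕ) : ℝ)
            = ∑ q ∈ (Icc 1 M).filter (fun q => f q = n), 1 / (n : ℝ) := by
              apply sum_congr rfl
              intro q hq
              rw [mem_filter] at hq
              rw [hq.2]
          _ = (((Icc 1 M).filter (fun q => f q = n)).card : ℝ) * (1 / (n : ℝ)) := by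
              rw [sum_const, nsmul_eq_mul]
          _ ≤ (Cd * ((N : ℝ) ^ 2) ^ τ) * (1 / (n : ℝ)) := by
              apply mul_le_mul_of_nonneg_right _ (by positivity)
              have h1 : ((Icc 1 M).filter (fun q => f q = n)).card ≤ n.divisors.card := by
                apply card_le_card
                intro q hq
                rw [mem_filter] at hq
                rw [Nat.mem_divisors]
                exact ⟨⟨(r q).den, hq.2.symm⟩, by omega⟩
              calc (((Icc 1 M).filter (fun q => f q = n)).card : ℝ) ≤ (n.divisors.card : ℝ) := by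
                    exact_mod_cast h1
                _ ≤ Cd * (n : ℝ) ^ τ := hdiv n (by omega)
                _ ≤ Cd * ((N : ℝ) ^ 2) ^ τ := by
                    apply mul_le_mul_of_nonneg_left _ hCd.le
                    apply Real.rpow_le_rpow hn0.le _ hτ.le
                    exact_mod_cast hn'.2
    _ = M * (Cd * ((N : ℝ) ^ 2) ^ τ * ∑ n ∈ E, 1 / (n : ℝ)) := by
        rw [← mul_sum]
    _ ≤ M * (Cd * ((N : ℝ) ^ 2) ^ τ * ((1 + Real.log ((N : ℝ) ^ 2)) / G)) := by
        gcongr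

end Pool.Agent.H49.LM
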