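import Mathlib

/-!
# Sums of partial quotients from a bound over all denominators
-/

set_option autoImplicit false

namespace Pool.Agent.H49.LM

open Finset

/-- partial quotients, numerators and denominators of the convergents of an irrational number -/
theorem cf_data (α : ℝ) (hirr : Irrational α) :
    ∃ (b : ℕ → ℕ) (A : ℕ → ℤ) (B : ℕ → ℕ), (∀ k, 1 ≤ b k) ∧
      (∀ k, (GenContFract.of α).partDens.get? k = some (b k : ℝ)) ∧
      (∀ k, (GenContFract.of α).dens k = (B k : ℝ)) ∧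
      B 0 = 1 ∧ B 1 = b 0 ∧ (∀ k, B (k + 2) = b (k + 1) * B (k + 1) + B k) ∧
      ∀ k, |(B k : ℝ) * α - A k| ≤ 1 / ((b k : ℝ) * B k) := by
  set g := GenContFract.of α with hg
  have hnt : ∀ k, ¬ g.TerminatedAt k := by
    intro k hk
    have h1 : g.Terminates := ⟨k, hk⟩
    rw [hg, GenContFract.terminates_iff_rat] at h1
    obtain ⟨q, hq⟩ := h1
    exact hirr ⟨q, hq.symm⟩
  have hs : ∀ k, ∃ gp, g.s.get? k = some gp := by
    intro k
    have h1 := hnt k
    rw [GenContFract.terminatedAt_iff_s_none] at h1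
    exact Option.ne_none_iff_exists'.1 h1
  choose gp hgp using hs
  have hpd : ∀ k, g.partDens.get? k = some (gp k).b := fun k =>
    GenContFract.partDen_eq_s_b (hgp k)
  have hpn : ∀ k, (gp k).a = 1 := fun k =>
    GenContFract.of_partNum_eq_one (GenContFract.partNum_eq_s_a (hgp k))
  have hb : ∀ k, ∃ n : ℕ, 1 ≤ n ∧ (gp k).b = n := by
    intro k
    obtain ⟨z, hz⟩ := GenContFract.exists_int_eq_of_partDen (hpd k)
    have h1 := GenContFract.of_one_le_get?_partDen (hpd k)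
    rw [hz] at h1
    have h2 : 1 ≤ z := by exact_mod_cast h1
    refine ⟨z.toNat, by omega, ?_⟩
    rw [hz]
    have : ((z.toNat : ℕ) : ℤ) = z := Int.toNat_of_nonneg (by omega)
    exact_mod_cast this.symm
  choose b hb1 hbeq using hb
  -- denominators
  have hB : ∀ k, (∃ n : ℕ, g.dens k = n) ∧ ∃ n : ℕ, g.dens (k + 1) = n := by
    intro k
    induction k with
    | zero =>
      refine ⟨⟨1, by simp⟩, ⟨b 0, ?_⟩⟩
      rw [zero_add, GenContFract.first_den_eq (hgp 0), hbeq]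
    | succ k ih =>
      obtain ⟨⟨n1, h1⟩, ⟨n2, h2⟩⟩ := ih
      refine ⟨⟨n2, h2⟩, ⟨b (k + 1) * n2 + n1, ?_⟩⟩
      rw [GenContFract.dens_recurrence (hgp (k + 1)) h1 h2, hbeq, hpn]
      push_cast
      ring
  have hA : ∀ k, (∃ n : ℤ, g.nums k = n) ∧ ∃ n : ℤ, g.nums (k + 1) = n := by
    intro k
    induction k with
    | zero =>
      have h0 : g.h = ((⌊α⌋ : ℤ) : ℝ) := GenContFract.of_h_eq_floor
      refine ⟨⟨⌊α⌋, by simp [h0]⟩, ⟨b 0 * ⌊α⌋ + 1, ?_⟩⟩
      rw [zero_add, GenContFract.first_num_eq (hgp 0), hbeq, hpn, h0]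
      push_cast
      ring
    | succ k ih =>
      obtain ⟨⟨n1, h1⟩, ⟨n2, h2⟩⟩ := ih
      refine ⟨⟨n2, h2⟩, ⟨b (k + 1) * n2 + n1, ?_⟩⟩
      rw [GenContFract.nums_recurrence (hgp (k + 1)) h1 h2, hbeq, hpn]
      push_cast
      ring
  choose B hBeq using fun k => (hB k).1
  choose A hAeq using fun k => (hA k).1
  have hB0 : B 0 = 1 := by
    have h1 := hBeq 0
    rw [GenContFract.zeroth_den_eq_one] at h1
    exact_mod_cast h1.symm
  have hB1 : B 1 = b 0 := by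
    have h1 := hBeq 1
    rw [GenContFract.first_den_eq (hgp 0), hbeq] at h1
    exact_mod_cast h1.symm
  have hBr : ∀ k, B (k + 2) = b (k + 1) * B (k + 1) + B k := by
    intro k
    have h1 := hBeq (k + 2)
    rw [GenContFract.dens_recurrence (hgp (k + 1)) (hBeq k) (hBeq (k + 1)), hbeq, hpn] at h1
    have h2 : ((B (k + 2) : ℕ) : ℝ) = ((b (k + 1) * B (k + 1) + B k : ℕ) : ℝ) := by
      push_cast
      linarith
    exact_mod_cast h2
  have hBpos : ∀ k, 1 ≤ B k ∧ 1 ≤ B (k + 1) := by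
    intro k
    induction k with
    | zero => exact ⟨by omega, by rw [zero_add, hB1]; exact hb1 0⟩
    | succ k ih =>
      refine ⟨ih.2, ?_⟩
      rw [hBr k]
      have := ih.1
      omega
  refine ⟨b, A, B, hb1, fun k => by rw [hpd, hbeq], hBeq, hB0, hB1, hBr, fun k => ?_⟩
  have h1 := GenContFract.abs_sub_convergents_le' (hpd k)
  have h2 : (0 : ℝ) < B k := by exact_mod_cast (hBpos k).1
  have h3 : (0 : ℝ) < b k := by exact_mod_cast hb1 k
  rw [GenContFract.conv_eq_num_div_den, hAeq, hBeq, hbeq] at h1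
  have e1 : (B k : ℝ) * α - A k = B k * (α - A k / B k) := by
    field_simp
  rw [e1, abs_mul, abs_of_pos h2]
  calc (B k : ℝ) * |α - A k / B k| ≤ B k * (1 / ((b k : ℝ) * B k * B k)) :=
        mul_le_mul_of_nonneg_left h1 h2.le
    _ = 1 / ((b k : ℝ) * B k) := by
        field_simp

/-- growth: if `y (k+1) ≤ y k + log (1 + K y²)` then `y k ≤ D (k+1)^(3/2)` -/
theorem growth (K : ℝ) (hK : 0 < K) : ∃ D : ℝ, 1 ≤ D ∧ ∀ (y : ℕ → ℝ) (n : ℕ), (∀ k, Real.log 2 ≤ y k) →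
    y 0 ≤ Real.log 2 → (∀ k, k < n → y (k + 1) ≤ y k + Real.log (1 + K * y k ^ 2)) →
    ∀ k, k ≤ n → y k ≤ D * ((k : ℝ) + 1) ^ ((3 : ℝ) / 2) := by
  have hlog2 : 0 < Real.log 2 := Real.log_pos (by norm_num)
  set K' : ℝ := K + 1 / Real.log 2 ^ 2 with hK'
  have hK'0 : 0 < K' := by positivity
  set E : ℝ := 6 * K' ^ ((1 : ℝ) / 6) with hE
  have hE0 : 0 < E := by positivity
  set D : ℝ := (1 + E) ^ 3 with hD
  have hE1 : 1 ≤ 1 + E := by linarith
  have hD1 : 1 ≤ D := one_le_pow₀ hE1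
  have hD13 : D ^ ((1 : ℝ) / 3) = 1 + E := by
    rw [hD, ← Real.rpow_natCast, ← Real.rpow_mul (by linarith)]
    norm_num
  have hED : E * D ^ ((1 : ℝ) / 3) ≤ D := by
    rw [hD13, hD]
    nlinarith [sq_nonneg E, mul_pos hE0 hE0, mul_pos (mul_pos hE0 hE0) hE0]
  refine ⟨D, hD1, fun y n hy hy0 hrec k => ?_⟩
  induction k with
  | zero =>
    intro _
    have h1 : Real.log 2 ≤ 1 := by
      have := Real.log_le_sub_one_of_pos (show (0 : ℝ) < 2 by norm_num)
      linarith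
    simp only [Nat.cast_zero, zero_add, Real.one_rpow, mul_one]
    linarith
  | succ k ih =>
    intro hk
    have ih' := ih (by omega)
    have h1 := hrec k (by omega)
    have hyk := hy k
    have hyk0 : 0 < y k := lt_of_lt_of_le hlog2 hyk
    set t : ℝ := (k : ℝ) + 1 with ht
    have ht1 : 1 ≤ t := by
      have : (0 : ℝ) ≤ k := Nat.cast_nonneg k
      linarith
    have ht0 : 0 < t := by linarith
    have h2 : 1 + K * y k ^ 2 ≤ K' * y k ^ 2 := by
      have : 1 ≤ 1 / Real.log 2 ^ 2 * y k ^ 2 := by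
        rw [one_div_mul_eq_div, le_div_iff₀ (by positivity), one_mul]
        exact pow_le_pow_left₀ hlog2.le hyk 2
      rw [hK']
      linarith
    have h3 : Real.log (1 + K * y k ^ 2) ≤ E * y k ^ ((1 : ℝ) / 3) := by
      have h4 := Real.log_le_rpow_div (show (0 : ℝ) ≤ 1 + K * y k ^ 2 by positivity)
        (show (0 : ℝ) < 1 / 6 by norm_num)
      have h5 : (1 + K * y k ^ 2) ^ ((1 : ℝ) / 6) ≤ (K' * y k ^ 2) ^ ((1 : ℝ) / 6) :=
        Real.rpow_le_rpow (by positivity) h2 (by norm_num)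
      have h6 : (K' * y k ^ 2) ^ ((1 : ℝ) / 6) = K' ^ ((1 : ℝ) / 6) * y k ^ ((1 : ℝ) / 3) := by
        rw [Real.mul_rpow hK'0.le (by positivity), ← Real.rpow_natCast (y k) 2,
          ← Real.rpow_mul hyk0.le]
        norm_num
      rw [h6] at h5
      calc Real.log (1 + K * y k ^ 2) ≤ (1 + K * y k ^ 2) ^ ((1 : ℝ) / 6) / (1 / 6) := h4
        _ = 6 * (1 + K * y k ^ 2) ^ ((1 : ℝ) / 6) := by ring
        _ ≤ 6 * (K' ^ ((1 : ℝ) / 6) * y k ^ ((1 : ℝ) / 3)) := by linarith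
        _ = E * y k ^ ((1 : ℝ) / 3) := by rw [hE]; ring
    have h7 : y k ^ ((1 : ℝ) / 3) ≤ D ^ ((1 : ℝ) / 3) * t ^ ((1 : ℝ) / 2) := by
      calc y k ^ ((1 : ℝ) / 3) ≤ (D * t ^ ((3 : ℝ) / 2)) ^ ((1 : ℝ) / 3) :=
            Real.rpow_le_rpow hyk0.le ih' (by norm_num)
        _ = D ^ ((1 : ℝ) / 3) * t ^ ((1 : ℝ) / 2) := by
            rw [Real.mul_rpow (by linarith) (by positivity), ← Real.rpow_mul ht0.le]
            norm_num
    have h8 : t ^ ((3 : ℝ) / 2) + t ^ ((1 : ℝ) / 2) ≤ (t + 1) ^ ((3 : ℝ) / 2) := by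
      have e1 : t ^ ((3 : ℝ) / 2) = t * t ^ ((1 : ℝ) / 2) := by
        rw [show (3 : ℝ) / 2 = 1 + 1 / 2 by norm_num, Real.rpow_add ht0, Real.rpow_one]
      have e2 : (t + 1) ^ ((3 : ℝ) / 2) = (t + 1) * (t + 1) ^ ((1 : ℝ) / 2) := by
        rw [show (3 : ℝ) / 2 = 1 + 1 / 2 by norm_num, Real.rpow_add (by linarith), Real.rpow_one]
      rw [e1, e2]
      have h9 : t ^ ((1 : ℝ) / 2) ≤ (t + 1) ^ ((1 : ℝ) / 2) :=
        Real.rpow_le_rpow ht0.le (by linarith) (by norm_num)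
      nlinarith
    have e3 : (((k + 1 : ℕ) : ℝ) + 1) = t + 1 := by
      rw [ht]
      push_cast
      ring
    rw [e3]
    calc y (k + 1) ≤ y k + Real.log (1 + K * y k ^ 2) := h1
      _ ≤ D * t ^ ((3 : ℝ) / 2) + E * (D ^ ((1 : ℝ) / 3) * t ^ ((1 : ℝ) / 2)) := by
          have := mul_le_mul_of_nonneg_left h7 hE0.le
          linarith
      _ = D * t ^ ((3 : ℝ) / 2) + (E * D ^ ((1 : ℝ) / 3)) * t ^ ((1 : ℝ) / 2) := by ring
      _ ≤ D * t ^ ((3 : ℝ) / 2) + D * t ^ ((1 : ℝ) / 2) := by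
          have h10 : 0 ≤ t ^ ((1 : ℝ) / 2) := by positivity
          have := mul_le_mul_of_nonneg_right hED h10
          linarith
      _ = D * (t ^ ((3 : ℝ) / 2) + t ^ ((1 : ℝ) / 2)) := by ring
      _ ≤ D * (t + 1) ^ ((3 : ℝ) / 2) := mul_le_mul_of_nonneg_left h8 (by linarith)

open Classical in
/-- the number of `t ≤ T` with `‖q α‖ ≤ 1 / (q t)` -/
noncomputable def G (T : ℕ) (q : ℕ) (α : ℝ) : ℕ :=
  ((Icc 1 T).filter (fun t : ℕ => ∃ p : ℤ, |(q : ℝ) * α - p| ≤ 1 / ((q : ℝ) * t))).card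

/-- from bounds over all denominators `q ≤ M` to the sum of the partial quotients -/
theorem sum_of_bounds (K C1 : ℝ) (hK : 0 < K) (hC1 : 0 < C1) : ∃ C : ℝ, ∀ (α : ℝ) (M : ℕ),
    Irrational α →
    (∀ q ∈ Icc 1 M, ∀ p : ℤ, 1 / (K * q * Real.log ((q : ℝ) + 1) ^ 2) < |(q : ℝ) * α - p|) →
    (∑ q ∈ Icc 1 M, (G ⌈K * Real.log ((q : ℝ) + 1) ^ 2⌉₊ q α : ℝ) /
      Real.log ((q : ℝ) + 1) ^ ((4 : ℝ) / 3) ≤ C1) →
    ∀ n : ℕ, 1 ≤ n → (GenContFract.of α).dens (n - 1) ≤ M →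
      ∑ k ∈ range n, ((GenContFract.of α).partDens.get? k).getD 0 ≤ C * (n : ℝ) ^ 2 := by
  classical
  have hlog2 : 0 < Real.log 2 := Real.log_pos (by norm_num)
  obtain ⟨D, hD1, hgrow⟩ := growth K hK
  refine ⟨K * Real.log 2 ^ 2 + C1 * D ^ ((4 : ℝ) / 3), fun α M hirr hG1 hG2 n hn hdn => ?_⟩
  obtain ⟨b, A, B, hb1, hbeq, hBeq, hB0, hB1, hBr, happ⟩ := cf_data α hirr
  obtain ⟨n, rfl⟩ : ∃ l, n = l + 1 := ⟨n - 1, by omega⟩
  rw [Nat.add_sub_cancel, hBeq] at hdn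
  have hdn' : B n ≤ M := by exact_mod_cast hdn
  have hBpos : ∀ k, 1 ≤ B k ∧ 1 ≤ B (k + 1) := by
    intro k
    induction k with
    | zero => exact ⟨by omega, by rw [zero_add, hB1]; exact hb1 0⟩
    | succ k ih =>
      refine ⟨ih.2, ?_⟩
      rw [hBr k]
      have := ih.1
      omega
  have hstep : ∀ k, B k ≤ B (k + 1) := by
    intro k
    rcases k with _ | k
    · rw [hB0]
      exact (hBpos 0).2
    · rw [hBr k]
      have := hb1 (k + 1)
      nlinarith [(hBpos k).1, (hBpos k).2]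
  have hmono : Monotone B := monotone_nat_of_le_succ hstep
  have hstrict : StrictMono (fun k => B (k + 1)) := by
    apply strictMono_nat_of_lt_succ
    intro k
    show B (k + 1) < B (k + 2)
    rw [hBr k]
    have := hb1 (k + 1)
    nlinarith [(hBpos k).1, (hBpos k).2]
  -- partial quotients in terms of the denominators
  have hbk : ∀ k, k ≤ n → (b k : ℝ) < K * Real.log ((B k : ℝ) + 1) ^ 2 := by
    intro k hk
    have hBk : (0 : ℝ) < B k := by exact_mod_cast (hBpos k).1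
    have hbk0 : (0 : ℝ) < b k := by exact_mod_cast hb1 k
    have hlk : 0 < Real.log ((B k : ℝ) + 1) := Real.log_pos (by linarith)
    have h1 := hG1 (B k) (mem_Icc.2 ⟨(hBpos k).1, (hmono hk).trans hdn'⟩) (A k)
    have h2 := h1.trans_le (happ k)
    rw [div_lt_div_iff₀ (by positivity) (by positivity), one_mul, one_mul] at h2
    have h3 : (b k : ℝ) * B k < (K * Real.log ((B k : ℝ) + 1) ^ 2) * B k := by linarith
    exact lt_of_mul_lt_mul_right h3 hBk.le
  have hbG : ∀ k, k ≤ n →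
      b k ≤ G ⌈K * Real.log (((B k : ℕ) : ℝ) + 1) ^ 2⌉₊ (B k) α := by
    intro k hk
    have hBk : (0 : ℝ) < B k := by exact_mod_cast (hBpos k).1
    have hbk0 : (0 : ℝ) < b k := by exact_mod_cast hb1 k
    have h1 : Icc 1 (b k) ⊆ (Icc 1 ⌈K * Real.log (((B k : ℕ) : ℝ) + 1) ^ 2⌉₊).filter
        (fun t : ℕ => ∃ p : ℤ, |((B k : ℕ) : ℝ) * α - p| ≤ 1 / (((B k : ℕ) : ℝ) * t)) := by
      intro t ht
      rw [mem_Icc] at ht
      rw [mem_filter, mem_Icc]
      have ht0 : (0 : ℝ) < t := by exact_mod_cast ht.1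
      refine ⟨⟨ht.1, ht.2.trans ?_⟩, A k, (happ k).trans ?_⟩
      · have : (b k : ℝ) ≤ (⌈K * Real.log (((B k : ℕ) : ℝ) + 1) ^ 2⌉₊ : ℝ) :=
          (hbk k hk).le.trans (Nat.le_ceil _)
        exact_mod_cast this
      · apply one_div_le_one_div_of_le (by positivity)
        have : (t : ℝ) ≤ b k := by exact_mod_cast ht.2
        nlinarith
    have h2 := card_le_card h1
    rw [Nat.card_Icc, Nat.add_sub_cancel] at h2
    exact h2
  -- growth of the denominators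
  set y : ℕ → ℝ := fun k => Real.log ((B k : ℝ) + 1) with hy
  have hylow : ∀ k, Real.log 2 ≤ y k := by
    intro k
    have h1 : (1 : ℝ) ≤ B k := by exact_mod_cast (hBpos k).1
    exact Real.log_le_log (by norm_num) (by linarith)
  have hy0 : y 0 ≤ Real.log 2 := by
    rw [hy]
    simp only
    rw [hB0]
    norm_num
  have hyrec : ∀ k, k < n → y (k + 1) ≤ y k + Real.log (1 + K * y k ^ 2) := by
    intro k hk
    have hBk : (1 : ℝ) ≤ B k := by exact_mod_cast (hBpos k).1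
    have h1 : (B (k + 1) : ℝ) ≤ ((b k : ℝ) + 1) * B k := by
      rcases k with _ | k
      · rw [zero_add, hB1, hB0]
        push_cast
        linarith
      · rw [hBr k]
        push_cast
        have : (B k : ℝ) ≤ B (k + 1) := by exact_mod_cast hstep k
        linarith
    have h2 := hbk k hk.le
    have h3 : (0 : ℝ) ≤ b k := Nat.cast_nonneg _
    rw [hy]
    simp only
    rw [← Real.log_mul (by positivity) (by positivity)]
    apply Real.log_le_log (by positivity)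
    calc (B (k + 1) : ℝ) + 1 ≤ ((b k : ℝ) + 1) * B k + 1 := by linarith
      _ ≤ ((B k : ℝ) + 1) * (1 + b k) := by nlinarith
      _ ≤ ((B k : ℝ) + 1) * (1 + K * Real.log ((B k : ℝ) + 1) ^ 2) := by
          apply mul_le_mul_of_nonneg_left _ (by linarith)
          linarith
  have hyn := hgrow y n hylow hy0 hyrec n le_rfl
  -- the sum
  have hget : ∀ k, ((GenContFract.of α).partDens.get? k).getD 0 = (b k : ℝ) := by
    intro k
    rw [hbeq]
    rfl
  rw [sum_congr rfl (fun k _ => hget k), sum_range_succ']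
  have hpart : ∑ k ∈ range n, (b (k + 1) : ℝ) ≤ C1 * (y n) ^ ((4 : ℝ) / 3) := by
    have hyn0 : 0 < y n := lt_of_lt_of_le hlog2 (hylow n)
    calc ∑ k ∈ range n, (b (k + 1) : ℝ)
        ≤ ∑ k ∈ range n, (y n) ^ ((4 : ℝ) / 3) *
          ((G ⌈K * Real.log (((B (k + 1) : ℕ) : ℝ) + 1) ^ 2⌉₊ (B (k + 1)) α : ℝ) /
            Real.log (((B (k + 1) : ℕ) : ℝ) + 1) ^ ((4 : ℝ) / 3)) := by
          apply sum_le_sum
          intro k hk
          rw [mem_range] at hk
          have h1 : (b (k + 1) : ℝ) ≤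
              (G ⌈K * Real.log (((B (k + 1) : ℕ) : ℝ) + 1) ^ 2⌉₊ (B (k + 1)) α : ℝ) := by
            exact_mod_cast hbG (k + 1) (by omega)
          have h2 : 0 < y (k + 1) := lt_of_lt_of_le hlog2 (hylow (k + 1))
          have h3 : y (k + 1) ≤ y n := by
            apply Real.log_le_log (by positivity)
            have : (B (k + 1) : ℝ) ≤ B n := by exact_mod_cast hmono (by omega : k + 1 ≤ n)
            linarith
          have h4 : (y (k + 1)) ^ ((4 : ℝ) / 3) ≤ (y n) ^ ((4 : ℝ) / 3) :=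
            Real.rpow_le_rpow h2.le h3 (by norm_num)
          have h5 : 0 < (y (k + 1)) ^ ((4 : ℝ) / 3) := by positivity
          show (b (k + 1) : ℝ) ≤ (y n) ^ ((4 : ℝ) / 3) *
            ((G ⌈K * Real.log (((B (k + 1) : ℕ) : ℝ) + 1) ^ 2⌉₊ (B (k + 1)) α : ℝ) /
              (y (k + 1)) ^ ((4 : ℝ) / 3))
          rw [← mul_div_assoc, le_div_iff₀ h5, mul_comm]
          apply mul_le_mul h4 h1 (by positivity) (by positivity)
      _ = (y n) ^ ((4 : ℝ) / 3) * ∑ k ∈ range n,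
          ((G ⌈K * Real.log (((B (k + 1) : ℕ) : ℝ) + 1) ^ 2⌉₊ (B (k + 1)) α : ℝ) /
            Real.log (((B (k + 1) : ℕ) : ℝ) + 1) ^ ((4 : ℝ) / 3)) := by
          rw [mul_sum]
      _ = (y n) ^ ((4 : ℝ) / 3) * ∑ q ∈ (range n).image (fun k => B (k + 1)),
          ((G ⌈K * Real.log ((q : ℝ) + 1) ^ 2⌉₊ q α : ℝ) /
            Real.log ((q : ℝ) + 1) ^ ((4 : ℝ) / 3)) := by
          rw [sum_image (fun a _ c _ h => hstrict.injective h)]
      _ ≤ (y n) ^ ((4 : ℝ) / 3) * ∑ q ∈ Icc 1 M,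
          ((G ⌈K * Real.log ((q : ℝ) + 1) ^ 2⌉₊ q α : ℝ) /
            Real.log ((q : ℝ) + 1) ^ ((4 : ℝ) / 3)) := by
          apply mul_le_mul_of_nonneg_left _ (by positivity)
          apply sum_le_sum_of_subset_of_nonneg
          · intro q hq
            rw [mem_image] at hq
            obtain ⟨k, hk, rfl⟩ := hq
            rw [mem_range] at hk
            rw [mem_Icc]
            exact ⟨(hBpos k).2, (hmono (by omega : k + 1 ≤ n)).trans hdn'⟩
          · intro q _ _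
            have : 0 ≤ Real.log ((q : ℝ) + 1) := Real.log_nonneg (by
              have : (0 : ℝ) ≤ q := Nat.cast_nonneg q
              linarith)
            positivity
      _ ≤ (y n) ^ ((4 : ℝ) / 3) * C1 := mul_le_mul_of_nonneg_left hG2 (by positivity)
      _ = C1 * (y n) ^ ((4 : ℝ) / 3) := by ring
  have hy43 : (y n) ^ ((4 : ℝ) / 3) ≤ D ^ ((4 : ℝ) / 3) * (((n + 1 : ℕ) : ℝ)) ^ 2 := by
    have hyn0 : 0 < y n := lt_of_lt_of_le hlog2 (hylow n)
    calc (y n) ^ ((4 : ℝ) / 3) ≤ (D * ((n : ℝ) + 1) ^ ((3 : ℝ) / 2)) ^ ((4 : ℝ) / 3) :=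
          Real.rpow_le_rpow hyn0.le hyn (by norm_num)
      _ = D ^ ((4 : ℝ) / 3) * (((n + 1 : ℕ) : ℝ)) ^ 2 := by
          rw [Real.mul_rpow (by linarith) (by positivity), ← Real.rpow_mul (by positivity)]
          norm_num
  have hb0 : (b 0 : ℝ) ≤ K * Real.log 2 ^ 2 := by
    have h1 := (hbk 0 (Nat.zero_le n)).le
    rw [hB0] at h1
    norm_num at h1
    exact h1
  have hn1 : (1 : ℝ) ≤ (((n + 1 : ℕ) : ℝ)) ^ 2 := by
    have : (1 : ℝ) ≤ ((n + 1 : ℕ) : ℝ) := by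
      push_cast
      have : (0 : ℝ) ≤ n := Nat.cast_nonneg n
      linarith
    nlinarith
  calc ∑ k ∈ range n, (b (k + 1) : ℝ) + (b 0 : ℝ)
      ≤ C1 * (D ^ ((4 : ℝ) / 3) * (((n + 1 : ℕ) : ℝ)) ^ 2) + K * Real.log 2 ^ 2 := by
        have := mul_le_mul_of_nonneg_left hy43 hC1.le
        linarith
    _ ≤ C1 * (D ^ ((4 : ℝ) / 3) * (((n + 1 : ℕ) : ℝ)) ^ 2) +
        K * Real.log 2 ^ 2 * (((n + 1 : ℕ) : ℝ)) ^ 2 := by
        have h1 : 0 ≤ K * Real.log 2 ^ 2 := by positivity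
        nlinarith
    _ = (K * Real.log 2 ^ 2 + C1 * D ^ ((4 : ℝ) / 3)) * (((n + 1 : ℕ) : ℝ)) ^ 2 := by ring

end Pool.Agent.H49.LM
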