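import Pool.Agent.H49.LM.Main
import Pool.Agent.H49.LM.CF

/-!
# Partial quotients of almost all multiples of an algebraic number
-/

set_option autoImplicit false

namespace Pool.Agent.H49.LM

open Finset Filter

/-- Dirichlet approximations of the `q ξ` with a small sum of reciprocals of denominators. -/
theorem params (ξ : ℝ) (hroth : ∀ τ : ℝ, 0 < τ → ∃ c : ℝ, 0 < c ∧ ∀ q : ℕ, 1 ≤ q → ∀ p : ℤ,
      c ≤ (q : ℝ) ^ (1 + τ) * |q * ξ - p|) (κ A : ℝ) (hκ0 : 0 < κ) (hκ : κ < 1) (hA : 0 < A) :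
    ∃ N0 : ℕ, ∀ N : ℕ, N0 ≤ N → 1 ≤ N ∧ ⌊(N : ℝ) ^ κ⌋₊ ≤ N ∧ ∃ r : ℕ → ℚ,
      (∀ q : ℕ, |(q : ℝ) * ξ - r q| ≤ 1 / (((N : ℝ) + 1) * (r q).den) ∧ (r q).den ≤ N) ∧
      A * (1 + 2 * Real.log N) ^ 2 * ∑ q ∈ Icc 1 ⌊(N : ℝ) ^ κ⌋₊, 1 / ((r q).den : ℝ) ≤ 1 := by
  set τ : ℝ := (1 - κ) / 6 with hτdef
  have hτ : 0 < τ := by rw [hτdef]; linarith
  obtain ⟨c0, hc0, hr0⟩ := hroth τ hτ
  obtain ⟨Cd, hCd, hdiv⟩ := divisor_bound τ hτ
  set s : ℝ := 1 / (1 + τ) with hs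
  have hs1 : 1 - τ ≤ s := by
    rw [hs, le_div_iff₀ (by linarith)]
    nlinarith
  set e : ℝ := s - κ - 2 * τ with he
  have he0 : 0 < e := by
    rw [he]
    have : 3 * τ = (1 - κ) / 2 := by rw [hτdef]; ring
    linarith
  set A' : ℝ := A * Cd / (c0 / 2) ^ s with hA'
  have hA'0 : 0 < A' := by positivity
  have hlim : ∀ᶠ x : ℝ in atTop, A' * (1 + 2 * Real.log x) ^ 3 ≤ x ^ e := by
    set μ : ℝ := min 1 (1 / A') with hμ
    have hμ0 : 0 < μ := lt_min one_pos (by positivity)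
    have h1 := (isLittleO_log_rpow_atTop (show (0 : ℝ) < e / 3 by positivity)).bound
      (by positivity : (0 : ℝ) < μ / 4)
    have h2 := (tendsto_rpow_atTop (show (0 : ℝ) < e / 3 by positivity)).eventually_ge_atTop (2 / μ)
    filter_upwards [h1, h2, eventually_ge_atTop (1 : ℝ)] with x h1 h2 h3
    have hx0 : 0 ≤ x ^ (e / 3) := Real.rpow_nonneg (by linarith) _
    rw [Real.norm_of_nonneg hx0] at h1
    have h4 : Real.log x ≤ μ / 4 * x ^ (e / 3) := (le_abs_self _).trans h1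
    have h5 : 1 ≤ μ / 2 * x ^ (e / 3) := by
      rw [div_le_iff₀ hμ0] at h2
      linarith
    have h6 : 0 ≤ Real.log x := Real.log_nonneg h3
    have h7 : 1 + 2 * Real.log x ≤ μ * x ^ (e / 3) := by linarith
    have h8 : (1 + 2 * Real.log x) ^ 3 ≤ μ ^ 3 * x ^ e := by
      calc (1 + 2 * Real.log x) ^ 3 ≤ (μ * x ^ (e / 3)) ^ 3 :=
            pow_le_pow_left₀ (by positivity) h7 3
        _ = μ ^ 3 * x ^ e := by
            rw [mul_pow, ← Real.rpow_natCast (x ^ (e / 3)) 3, ← Real.rpow_mul (by linarith)]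
            congr 2
            push_cast
            ring
    have hμ1 : μ ≤ 1 := min_le_left _ _
    have hμA : A' * μ ≤ 1 := by
      have : μ ≤ 1 / A' := min_le_right _ _
      rwa [le_div_iff₀ hA'0, mul_comm] at this
    have h9 : A' * μ ^ 3 ≤ 1 := by
      calc A' * μ ^ 3 = (A' * μ) * μ ^ 2 := by ring
        _ ≤ 1 * 1 := by
            apply mul_le_mul hμA _ (by positivity) (by norm_num)
            nlinarith
        _ = 1 := by norm_num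
    have hx1 : 0 ≤ x ^ e := Real.rpow_nonneg (by linarith) _
    calc A' * (1 + 2 * Real.log x) ^ 3 ≤ A' * (μ ^ 3 * x ^ e) :=
          mul_le_mul_of_nonneg_left h8 hA'0.le
      _ = (A' * μ ^ 3) * x ^ e := by ring
      _ ≤ 1 * x ^ e := mul_le_mul_of_nonneg_right h9 hx1
      _ = x ^ e := one_mul _
  have hlimN := (tendsto_natCast_atTop_atTop (R := ℝ)).eventually hlim
  have hbigN := (tendsto_natCast_atTop_atTop (R := ℝ)).eventually_ge_atTop (2 / c0)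
  obtain ⟨N0, hN0⟩ := eventually_atTop.1 ((hlimN.and hbigN).and (eventually_ge_atTop 1))
  refine ⟨N0, fun N hN => ?_⟩
  obtain ⟨⟨hl, hb⟩, hN1⟩ := hN0 N hN
  have hNR1 : (1 : ℝ) ≤ N := by exact_mod_cast hN1
  have hNR0 : (0 : ℝ) < N := by linarith
  have hcN : 1 ≤ c0 * N / 2 := by
    rw [div_le_iff₀ hc0] at hb
    linarith
  have hG : 1 ≤ (c0 * N / 2) ^ (1 / (1 + τ)) := Real.one_le_rpow hcN (by positivity)
  have happ : ∀ q : ℕ, ∃ r : ℚ, |(q : ℝ) * ξ - r| ≤ 1 / (((N : ℝ) + 1) * r.den) ∧ r.den ≤ N :=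
    fun q => Real.exists_rat_abs_sub_le_and_den_le _ (by omega)
  choose r hr using happ
  set M : ℕ := ⌊(N : ℝ) ^ κ⌋₊ with hM
  have hMle : (M : ℝ) ≤ (N : ℝ) ^ κ := Nat.floor_le (by positivity)
  have hNκ : (N : ℝ) ^ κ ≤ N := by
    calc (N : ℝ) ^ κ ≤ (N : ℝ) ^ (1 : ℝ) := Real.rpow_le_rpow_of_exponent_le hNR1 hκ.le
      _ = N := Real.rpow_one _
  have hMN : M ≤ N := by
    have : (M : ℝ) ≤ N := hMle.trans hNκ
    exact_mod_cast this
  have hden := den_sum ξ τ c0 Cd hτ hc0 hCd hr0 hdiv N M hN1 hMN hG r hr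
  refine ⟨hN1, hMN, r, hr, ?_⟩
  have hlogN : 0 ≤ Real.log (N : ℝ) := Real.log_nonneg hNR1
  have e1 : (c0 * N / 2) ^ (1 / (1 + τ)) = (c0 / 2) ^ s * (N : ℝ) ^ s := by
    rw [← Real.mul_rpow (by positivity) hNR0.le]
    congr 1
    ring
  have e2 : ((N : ℝ) ^ 2) ^ τ = (N : ℝ) ^ (2 * τ) := by
    rw [← Real.rpow_natCast (N : ℝ) 2, ← Real.rpow_mul hNR0.le]
    norm_num
  have e3 : Real.log ((N : ℝ) ^ 2) = 2 * Real.log N := by
    rw [Real.log_pow]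
    norm_num
  rw [e1, e2, e3] at hden
  calc A * (1 + 2 * Real.log N) ^ 2 * ∑ q ∈ Icc 1 M, 1 / ((r q).den : ℝ)
      ≤ A * (1 + 2 * Real.log N) ^ 2 * (M * (Cd * (N : ℝ) ^ (2 * τ) * ((1 + 2 * Real.log N) /
        ((c0 / 2) ^ s * (N : ℝ) ^ s)))) := by
        apply mul_le_mul_of_nonneg_left hden (by positivity)
    _ ≤ A * (1 + 2 * Real.log N) ^ 2 * ((N : ℝ) ^ κ * (Cd * (N : ℝ) ^ (2 * τ) *
        ((1 + 2 * Real.log N) / ((c0 / 2) ^ s * (N : ℝ) ^ s)))) := by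
        gcongr
    _ = (A' * (1 + 2 * Real.log N) ^ 3) * ((N : ℝ) ^ κ * (N : ℝ) ^ (2 * τ) / (N : ℝ) ^ s) := by
        rw [hA']
        field_simp
    _ ≤ (N : ℝ) ^ e * ((N : ℝ) ^ κ * (N : ℝ) ^ (2 * τ) / (N : ℝ) ^ s) := by
        apply mul_le_mul_of_nonneg_right hl (by positivity)
    _ = 1 := by
        rw [← Real.rpow_add hNR0, ← Real.rpow_sub hNR0, ← Real.rpow_add hNR0]
        have : e + (κ + 2 * τ - s) = 0 := by rw [he]; ring
        rw [this, Real.rpow_zero]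

/-- the series `∑ 1 / (q (log (q+1))^(1+ε))` over `q ≥ 1` converges -/
theorem log_series' (ε : ℝ) (hε : 0 < ε) :
    ∃ Z : ℝ, 0 ≤ Z ∧ ∀ M : ℕ, ∑ q ∈ Icc 1 M, 1 / ((q : ℝ) * Real.log ((q : ℝ) + 1) ^ (1 + ε)) ≤ Z := by
  have hlog2 : 0 < Real.log 2 := Real.log_pos (by norm_num)
  obtain ⟨Z, hZ⟩ := log_series ε hε
  have hZ0 : 0 ≤ Z := by simpa using hZ 0
  refine ⟨1 / Real.log 2 ^ (1 + ε) + Z, by positivity, fun M => ?_⟩
  have hterm : ∀ q : ℕ, 0 ≤ 1 / ((q : ℝ) * Real.log ((q : ℝ) + 1) ^ (1 + ε)) := by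
    intro q
    have : 0 ≤ Real.log ((q : ℝ) + 1) := Real.log_nonneg (by
      have : (0 : ℝ) ≤ q := Nat.cast_nonneg q
      linarith)
    positivity
  have hsub : Icc 1 M ⊆ insert 1 (Icc 2 M) := by
    intro q hq
    rw [mem_Icc] at hq
    rw [mem_insert, mem_Icc]
    omega
  calc ∑ q ∈ Icc 1 M, 1 / ((q : ℝ) * Real.log ((q : ℝ) + 1) ^ (1 + ε))
      ≤ ∑ q ∈ insert 1 (Icc 2 M), 1 / ((q : ℝ) * Real.log ((q : ℝ) + 1) ^ (1 + ε)) :=
        sum_le_sum_of_subset_of_nonneg hsub fun q _ _ => hterm q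
    _ = 1 / Real.log 2 ^ (1 + ε) +
        ∑ q ∈ Icc 2 M, 1 / ((q : ℝ) * Real.log ((q : ℝ) + 1) ^ (1 + ε)) := by
        rw [sum_insert (by simp)]
        congr 1
        norm_num
    _ ≤ 1 / Real.log 2 ^ (1 + ε) + ∑ q ∈ Icc 2 M, 1 / ((q : ℝ) * Real.log q ^ (1 + ε)) := by
        apply add_le_add le_rfl
        apply sum_le_sum
        intro q hq
        rw [mem_Icc] at hq
        have hq2 : (2 : ℝ) ≤ q := by exact_mod_cast hq.1
        have hlq : 0 < Real.log q := Real.log_pos (by linarith)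
        apply one_div_le_one_div_of_le (by positivity)
        apply mul_le_mul_of_nonneg_left _ (by linarith)
        apply Real.rpow_le_rpow hlq.le _ (by linarith)
        exact Real.log_le_log (by linarith) (by linarith)
    _ ≤ 1 / Real.log 2 ^ (1 + ε) + Z := by
        have := hZ M
        linarith

/-- `1 + log ⌈K L²⌉ ≤ A L^(1/6)` for `L ≥ log 2` -/
theorem log_ceil (K : ℝ) (hK : 0 < K) : ∃ A : ℝ, 0 < A ∧ ∀ L : ℝ, Real.log 2 ≤ L →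
    1 + Real.log (⌈K * L ^ 2⌉₊ : ℝ) ≤ A * L ^ ((1 : ℝ) / 6) ∧
    (⌈K * L ^ 2⌉₊ : ℝ) ≤ A * L ^ 2 := by
  have hlog2 : 0 < Real.log 2 := Real.log_pos (by norm_num)
  set K' : ℝ := K + 1 / Real.log 2 ^ 2 with hK'
  have hK'0 : 0 < K' := by positivity
  set A1 : ℝ := 1 / Real.log 2 ^ ((1 : ℝ) / 6) + 12 * K' ^ ((1 : ℝ) / 12) with hA1
  refine ⟨A1 + K', by positivity, fun L hL => ?_⟩
  have hL0 : 0 < L := lt_of_lt_of_le hlog2 hL
  have h1 : (⌈K * L ^ 2⌉₊ : ℝ) ≤ K' * L ^ 2 := by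
    have h2 : (⌈K * L ^ 2⌉₊ : ℝ) < K * L ^ 2 + 1 := Nat.ceil_lt_add_one (by positivity)
    have h3 : 1 ≤ 1 / Real.log 2 ^ 2 * L ^ 2 := by
      rw [one_div_mul_eq_div, le_div_iff₀ (by positivity), one_mul]
      exact pow_le_pow_left₀ hlog2.le hL 2
    rw [hK']
    linarith
  have h4 : (0 : ℝ) < ⌈K * L ^ 2⌉₊ := by
    have : 0 < ⌈K * L ^ 2⌉₊ := Nat.ceil_pos.2 (by positivity)
    exact_mod_cast this
  constructor
  · have h5 := Real.log_le_rpow_div (show (0 : ℝ) ≤ (⌈K * L ^ 2⌉₊ : ℝ) from h4.le)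
      (show (0 : ℝ) < 1 / 12 by norm_num)
    have h6 : (⌈K * L ^ 2⌉₊ : ℝ) ^ ((1 : ℝ) / 12) ≤ K' ^ ((1 : ℝ) / 12) * L ^ ((1 : ℝ) / 6) := by
      calc (⌈K * L ^ 2⌉₊ : ℝ) ^ ((1 : ℝ) / 12) ≤ (K' * L ^ 2) ^ ((1 : ℝ) / 12) :=
            Real.rpow_le_rpow h4.le h1 (by norm_num)
        _ = K' ^ ((1 : ℝ) / 12) * L ^ ((1 : ℝ) / 6) := by
            rw [Real.mul_rpow hK'0.le (by positivity), ← Real.rpow_natCast L 2,
              ← Real.rpow_mul hL0.le]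
            norm_num
    have h7 : 1 ≤ 1 / Real.log 2 ^ ((1 : ℝ) / 6) * L ^ ((1 : ℝ) / 6) := by
      rw [one_div_mul_eq_div, le_div_iff₀ (by positivity), one_mul]
      exact Real.rpow_le_rpow hlog2.le hL (by norm_num)
    have h8 : 0 ≤ L ^ ((1 : ℝ) / 6) := by positivity
    calc 1 + Real.log (⌈K * L ^ 2⌉₊ : ℝ)
        ≤ 1 / Real.log 2 ^ ((1 : ℝ) / 6) * L ^ ((1 : ℝ) / 6) +
          12 * (K' ^ ((1 : ℝ) / 12) * L ^ ((1 : ℝ) / 6)) := by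
          have : (⌈K * L ^ 2⌉₊ : ℝ) ^ ((1 : ℝ) / 12) / (1 / 12) =
            12 * (⌈K * L ^ 2⌉₊ : ℝ) ^ ((1 : ℝ) / 12) := by ring
          linarith
      _ = A1 * L ^ ((1 : ℝ) / 6) := by rw [hA1]; ring
      _ ≤ (A1 + K') * L ^ ((1 : ℝ) / 6) := by
          apply mul_le_mul_of_nonneg_right (by linarith) h8
  · have hA10 : 0 ≤ A1 := by positivity
    nlinarith [sq_nonneg L]

end Pool.Agent.H49.LM
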