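import Pool.Agent.H49.LM.Basic

/-!
# Multiples and translates of an algebraic number: the main count
-/

set_option autoImplicit false

namespace Pool.Agent.H49.LM

open Finset Filter

/-- The divisor bound `d(n) ≤ C n^δ` (copied from `Pool.Agent.TH42.LA.E`). -/
lemma divisor_bound (δ : ℝ) (hδ : 0 < δ) :
    ∃ C : ℝ, 0 < C ∧ ∀ n : ℕ, n ≠ 0 → ((n.divisors.card : ℕ) : ℝ) ≤ C * (n : ℝ) ^ δ := by
  have hlog : 0 < Real.log 2 := Real.log_pos (by norm_num)
  have hδl : 0 < δ * Real.log 2 := mul_pos hδ hlog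
  set M : ℝ := max 1 (1 / (δ * Real.log 2)) with hM
  have hM1 : 1 ≤ M := le_max_left _ _
  have hM2 : 1 ≤ M * (δ * Real.log 2) := by
    have : 1 / (δ * Real.log 2) ≤ M := le_max_right _ _
    calc (1 : ℝ) = 1 / (δ * Real.log 2) * (δ * Real.log 2) := by
          field_simp
      _ ≤ M * (δ * Real.log 2) := mul_le_mul_of_nonneg_right this hδl.le
  set K : ℕ := ⌈(2 : ℝ) ^ (1 / δ)⌉₊ with hK
  have hKle : (2 : ℝ) ^ (1 / δ) ≤ (K : ℝ) := Nat.le_ceil _
  refine ⟨M ^ K, by positivity, ?_⟩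
  intro n hn
  have hbase : ∀ p ∈ n.primeFactors, (((n.factorization p + 1 : ℕ)) : ℝ) ≤
      (if p < K then M else 1) * (((p : ℝ) ^ (n.factorization p)) ^ δ) := by
    intro p hp
    have hpp : p.Prime := Nat.prime_of_mem_primeFactors hp
    set a := n.factorization p with ha
    have hp2 : (2 : ℝ) ≤ (p : ℝ) := by exact_mod_cast hpp.two_le
    have hp0 : (0 : ℝ) ≤ (p : ℝ) := by positivity
    have hpow : (((p : ℝ) ^ a) ^ δ) = ((p : ℝ) ^ δ) ^ a := by
      rw [← Real.rpow_natCast (p : ℝ) a, ← Real.rpow_mul hp0, ← Real.rpow_natCast ((p : ℝ) ^ δ) a,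
        ← Real.rpow_mul hp0, mul_comm]
    rw [hpow]
    split_ifs with hlt
    · have h1 : (2 : ℝ) ^ δ ≤ (p : ℝ) ^ δ := Real.rpow_le_rpow (by norm_num) hp2 hδ.le
      have h2 : ((2 : ℝ) ^ δ) ^ a ≤ ((p : ℝ) ^ δ) ^ a :=
        pow_le_pow_left₀ (by positivity) h1 a
      have h3 : 1 + (a : ℝ) * (δ * Real.log 2) ≤ ((2 : ℝ) ^ δ) ^ a := by
        have : ((2 : ℝ) ^ δ) ^ a = Real.exp ((a : ℝ) * (δ * Real.log 2)) := by
          rw [← Real.rpow_natCast, ← Real.rpow_mul (by norm_num), Real.rpow_def_of_pos (by norm_num)]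
          congr 1; ring
        rw [this]
        have := Real.add_one_le_exp ((a : ℝ) * (δ * Real.log 2))
        linarith
      have h4 : (((a + 1 : ℕ)) : ℝ) ≤ M * (1 + (a : ℝ) * (δ * Real.log 2)) := by
        push_cast
        have ha0 : (0 : ℝ) ≤ (a : ℝ) := by positivity
        nlinarith [mul_le_mul_of_nonneg_left hM2 ha0]
      calc (((a + 1 : ℕ)) : ℝ) ≤ M * (1 + (a : ℝ) * (δ * Real.log 2)) := h4
        _ ≤ M * (((p : ℝ) ^ δ) ^ a) :=
          mul_le_mul_of_nonneg_left (h3.trans h2) (by linarith)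
    · have hKp : (K : ℝ) ≤ (p : ℝ) := by exact_mod_cast not_lt.mp hlt
      have h1 : (2 : ℝ) ≤ (p : ℝ) ^ δ := by
        have h5 : ((2 : ℝ) ^ (1 / δ)) ^ δ ≤ (p : ℝ) ^ δ :=
          Real.rpow_le_rpow (by positivity) (hKle.trans hKp) hδ.le
        have h6 : ((2 : ℝ) ^ (1 / δ)) ^ δ = 2 := by
          rw [← Real.rpow_mul (by norm_num)]
          rw [one_div, inv_mul_cancel₀ hδ.ne', Real.rpow_one]
        rwa [h6] at h5
      have h2 : (2 : ℝ) ^ a ≤ ((p : ℝ) ^ δ) ^ a := pow_le_pow_left₀ (by norm_num) h1 a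
      have h3 : (((a + 1 : ℕ)) : ℝ) ≤ (2 : ℝ) ^ a := by
        have : a + 1 ≤ 2 ^ a := Nat.lt_two_pow_self
        exact_mod_cast this
      rw [one_mul]
      exact h3.trans h2
  have hn' : (n : ℝ) ^ δ = ∏ p ∈ n.primeFactors, (((p : ℝ) ^ (n.factorization p)) ^ δ) := by
    rw [Real.finsetProd_rpow _ _ (fun i _ => by positivity)]
    congr 1
    have := Nat.prod_factorization_pow_eq_self hn
    conv_lhs => rw [← this]
    rw [Finsupp.prod]
    push_cast
    rfl
  rw [Nat.card_divisors hn]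
  push_cast
  calc (∏ p ∈ n.primeFactors, ((n.factorization p : ℝ) + 1))
      ≤ ∏ p ∈ n.primeFactors, ((if p < K then M else 1) * (((p : ℝ) ^ (n.factorization p)) ^ δ)) := by
        apply Finset.prod_le_prod
        · intro i _; positivity
        · intro i hi
          have := hbase i hi
          push_cast at this
          exact this
    _ = (∏ p ∈ n.primeFactors, (if p < K then M else 1)) * (n : ℝ) ^ δ := by
        rw [Finset.prod_mul_distrib, hn']
    _ ≤ M ^ K * (n : ℝ) ^ δ := by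
        apply mul_le_mul_of_nonneg_right _ (by positivity)
        rw [Finset.prod_ite, Finset.prod_const, Finset.prod_const_one, mul_one]
        apply pow_le_pow_right₀ hM1
        calc (n.primeFactors.filter (fun p => p < K)).card ≤ (Finset.range K).card := by
              apply Finset.card_le_card
              intro x hx
              simp only [Finset.mem_filter] at hx
              exact Finset.mem_range.mpr hx.2
          _ = K := Finset.card_range K

/-- the series `∑ 1 / (q (log q)^(1+ε))` converges -/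
theorem log_series (ε : ℝ) (hε : 0 < ε) :
    ∃ Z : ℝ, ∀ M : ℕ, ∑ q ∈ Icc 2 M, 1 / ((q : ℝ) * Real.log q ^ (1 + ε)) ≤ Z := by
  have hlog2 : 0 < Real.log 2 := Real.log_pos (by norm_num)
  set f : ℕ → ℝ := fun n => 1 / ((n : ℝ) * Real.log ((n : ℝ) + 1) ^ (1 + ε)) with hf
  have hlognn : ∀ n : ℕ, 0 ≤ Real.log ((n : ℝ) + 1) := fun n => Real.log_nonneg (by
    have : (0 : ℝ) ≤ n := Nat.cast_nonneg n
    linarith)
  have hf0 : ∀ n, 0 ≤ f n := by
    intro n
    have := hlognn n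
    simp only [hf]
    positivity
  have hmono : ∀ ⦃m n : ℕ⦄, 0 < m → m ≤ n → f n ≤ f m := by
    intro m n hm hmn
    have hm0 : (0 : ℝ) < m := by exact_mod_cast hm
    have hmn' : (m : ℝ) ≤ n := by exact_mod_cast hmn
    have hlm : 0 < Real.log ((m : ℝ) + 1) := Real.log_pos (by linarith)
    simp only [hf]
    apply one_div_le_one_div_of_le (by positivity)
    apply mul_le_mul hmn' _ (by positivity) (by linarith)
    apply Real.rpow_le_rpow hlm.le _ (by linarith)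
    apply Real.log_le_log (by linarith) (by linarith)
  have hcond : Summable fun k : ℕ => (2 : ℝ) ^ k * f (2 ^ k) := by
    have h1 : Summable (fun k : ℕ => (Real.log 2 / 2) ^ (-(1 + ε)) *
        (((k + 1 : ℕ) : ℝ) ^ (1 + ε))⁻¹) :=
      ((summable_nat_add_iff 1).2 (Real.summable_nat_rpow_inv.mpr (by linarith : 1 < 1 + ε))).mul_left _
    refine Summable.of_nonneg_of_le (fun k => mul_nonneg (by positivity) (hf0 _)) ?_ h1
    intro k
    have h2 : Real.log 2 / 2 * ((k + 1 : ℕ) : ℝ) ≤ Real.log (((2 ^ k : ℕ) : ℝ) + 1) := by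
      have h3 : (k : ℝ) * Real.log 2 ≤ Real.log (((2 ^ k : ℕ) : ℝ) + 1) := by
        rw [← Real.log_pow]
        apply Real.log_le_log (by positivity)
        push_cast
        linarith
      have h4 : Real.log 2 ≤ Real.log (((2 ^ k : ℕ) : ℝ) + 1) := by
        apply Real.log_le_log (by norm_num)
        have : 1 ≤ 2 ^ k := Nat.one_le_two_pow
        have h5 : (1 : ℝ) ≤ ((2 ^ k : ℕ) : ℝ) := by exact_mod_cast this
        linarith
      push_cast at h3 h4 ⊢
      linarith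
    have hpos : 0 < Real.log 2 / 2 * ((k + 1 : ℕ) : ℝ) := by positivity
    have e1 : (2 : ℝ) ^ k * f (2 ^ k) = (Real.log (((2 ^ k : ℕ) : ℝ) + 1) ^ (1 + ε))⁻¹ := by
      simp only [hf]
      push_cast
      have h6 : (0 : ℝ) < 2 ^ k := by positivity
      rw [one_div, mul_inv, ← mul_assoc, mul_inv_cancel₀ h6.ne', one_mul]
    have e2 : (Real.log 2 / 2) ^ (-(1 + ε)) * (((k + 1 : ℕ) : ℝ) ^ (1 + ε))⁻¹ =
        ((Real.log 2 / 2 * ((k + 1 : ℕ) : ℝ)) ^ (1 + ε))⁻¹ := by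
      rw [Real.mul_rpow (by positivity) (by positivity), Real.rpow_neg (by positivity), mul_inv]
    rw [e1, e2]
    apply inv_anti₀ (by positivity)
    exact Real.rpow_le_rpow hpos.le h2 (by linarith)
  have hsum : Summable f := (summable_condensed_iff_of_nonneg hf0 hmono).1 hcond
  refine ⟨∑' n, (2 : ℝ) ^ (1 + ε) * f n, fun M => ?_⟩
  have hsum2 : Summable fun n => (2 : ℝ) ^ (1 + ε) * f n := hsum.mul_left _
  refine le_trans ?_ (hsum2.sum_le_tsum (Icc 2 M) (fun n _ => mul_nonneg (by positivity) (hf0 n)))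
  apply sum_le_sum
  intro q hq
  rw [mem_Icc] at hq
  have hq2 : (2 : ℝ) ≤ q := by exact_mod_cast hq.1
  have hlq : 0 < Real.log q := Real.log_pos (by linarith)
  have hlq1 : 0 < Real.log ((q : ℝ) + 1) := Real.log_pos (by linarith)
  have h1 : Real.log ((q : ℝ) + 1) ≤ 2 * Real.log q := by
    have : 2 * Real.log q = Real.log ((q : ℝ) ^ 2) := by
      rw [Real.log_pow]
      norm_num
    rw [this]
    apply Real.log_le_log (by linarith)
    nlinarith
  simp only [hf]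
  rw [mul_one_div, div_le_div_iff₀ (by positivity) (by positivity), one_mul]
  calc (q : ℝ) * Real.log ((q : ℝ) + 1) ^ (1 + ε) ≤ q * (2 * Real.log q) ^ (1 + ε) := by
        apply mul_le_mul_of_nonneg_left _ (by linarith)
        exact Real.rpow_le_rpow hlq1.le h1 (by linarith)
    _ = 2 ^ (1 + ε) * (q * Real.log q ^ (1 + ε)) := by
        rw [Real.mul_rpow (by norm_num) hlq.le]
        ring

open Classical in
/-- For a Roth number `ξ` and any summable weight `w`: for all `β` and all but `η N` of the `m < N`,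
`|m ξ + β - p/q| > c w(q) / q` for all `2 ≤ q ≤ N^κ`, `κ < 1`. -/
theorem main_large (ξ : ℝ) (hroth : ∀ τ : ℝ, 0 < τ → ∃ c : ℝ, 0 < c ∧ ∀ q : ℕ, 1 ≤ q → ∀ p : ℤ,
      c ≤ (q : ℝ) ^ (1 + τ) * |q * ξ - p|) (κ η c Z : ℝ) (hκ0 : 0 < κ) (hκ : κ < 1) (hη : 0 < η)
    (hc : 0 < c) (w : ℕ → ℝ) (hw : ∀ q, 0 ≤ w q) (hZ : ∀ M : ℕ, ∑ q ∈ Icc 2 M, w q ≤ Z)
    (hcZ : 4 * c * Z ≤ η / 2) :
    ∃ N0 : ℕ, ∀ N : ℕ, N0 ≤ N → ∀ β : ℝ,
      (((range N).filter (fun m : ℕ => ∃ (p : ℤ) (q : ℕ), 2 ≤ q ∧ (q : ℝ) ≤ (N : ℝ) ^ κ ∧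
        |(m : ℝ) * ξ + β - (p : ℝ) / q| ≤ c * w q / q)).card : ℝ) ≤ η * N := by
  set τ : ℝ := (1 - κ) / 6 with hτdef
  have hτ : 0 < τ := by rw [hτdef]; linarith
  obtain ⟨c0, hc0, hr0⟩ := hroth τ hτ
  obtain ⟨Cd, hCd, hdiv⟩ := divisor_bound τ hτ
  set s : ℝ := 1 / (1 + τ) with hs
  have hs1 : 1 - τ ≤ s := by
    rw [hs, le_div_iff₀ (by linarith)]
    nlinarith
  set e : ℝ := s - κ - 2 * τ with he
  have he0 : 0 < e := by
    rw [he]
    have : 3 * τ = (1 - κ) / 2 := by rw [hτdef]; ring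
    linarith
  set A : ℝ := 6 * Cd / (c0 / 2) ^ s with hA
  have hA0 : 0 < A := by positivity
  have hlim : ∀ᶠ x : ℝ in atTop, A * (1 + 2 * Real.log x) ≤ η / 2 * x ^ e := by
    have h1 := (isLittleO_log_rpow_atTop he0).bound (by positivity : (0 : ℝ) < η / (8 * A))
    have h2 := (tendsto_rpow_atTop he0).eventually_ge_atTop (4 * A / η)
    filter_upwards [h1, h2, eventually_ge_atTop (1 : ℝ)] with x h1 h2 h3
    have hx0 : 0 ≤ x ^ e := Real.rpow_nonneg (by linarith) _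
    rw [Real.norm_of_nonneg hx0] at h1
    have h4 : Real.log x ≤ η / (8 * A) * x ^ e := (le_abs_self _).trans h1
    have h5 : A ≤ η / 4 * x ^ e := by
      rw [div_le_iff₀ hη] at h2
      linarith
    calc A * (1 + 2 * Real.log x) = A + 2 * A * Real.log x := by ring
      _ ≤ η / 4 * x ^ e + 2 * A * (η / (8 * A) * x ^ e) := by
          apply add_le_add h5
          apply mul_le_mul_of_nonneg_left h4 (by positivity)
      _ = η / 2 * x ^ e := by
          field_simp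
          ring
  have hlimN := (tendsto_natCast_atTop_atTop (R := ℝ)).eventually hlim
  have hbigN := (tendsto_natCast_atTop_atTop (R := ℝ)).eventually_ge_atTop (2 / c0)
  obtain ⟨N0, hN0⟩ := eventually_atTop.1 ((hlimN.and hbigN).and (eventually_ge_atTop 1))
  refine ⟨N0, fun N hN β => ?_⟩
  obtain ⟨⟨hl, hb⟩, hN1⟩ := hN0 N hN
  have hNR1 : (1 : ℝ) ≤ N := by exact_mod_cast hN1
  have hNR0 : (0 : ℝ) < N := by linarith
  have hcN : 1 ≤ c0 * N / 2 := by
    rw [div_le_iff₀ hc0] at hb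
    linarith
  have hG : 1 ≤ (c0 * N / 2) ^ (1 / (1 + τ)) := Real.one_le_rpow hcN (by positivity)
  have happ : ∀ q : ℕ, ∃ r : ℚ, |(q : ℝ) * ξ - r| ≤ 1 / (((N : ℝ) + 1) * r.den) ∧ r.den ≤ N :=
    fun q => Real.exists_rat_abs_sub_le_and_den_le _ (by omega)
  choose r hr using happ
  set M : ℕ := ⌊(N : ℝ) ^ κ⌋₊ with hM
  have hMle : (M : ℝ) ≤ (N : ℝ) ^ κ := Nat.floor_le (by positivity)
  have hNκ : (N : ℝ) ^ κ ≤ N := by
    calc (N : ℝ) ^ κ ≤ (N : ℝ) ^ (1 : ℝ) := Real.rpow_le_rpow_of_exponent_le hNR1 hκ.le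
      _ = N := Real.rpow_one _
  have hMN : M ≤ N := by
    have : (M : ℝ) ≤ N := hMle.trans hNκ
    exact_mod_cast this
  have hden := den_sum ξ τ c0 Cd hτ hc0 hCd hr0 hdiv N M hN1 hMN hG r hr
  -- the error term
  have herr : 6 * ∑ q ∈ Icc 1 M, 1 / ((r q).den : ℝ) ≤ η / 2 := by
    have hlogN : 0 ≤ Real.log (N : ℝ) := Real.log_nonneg hNR1
    have e1 : (c0 * N / 2) ^ (1 / (1 + τ)) = (c0 / 2) ^ s * (N : ℝ) ^ s := by
      rw [← Real.mul_rpow (by positivity) hNR0.le]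
      congr 1
      ring
    have e2 : ((N : ℝ) ^ 2) ^ τ = (N : ℝ) ^ (2 * τ) := by
      rw [← Real.rpow_natCast (N : ℝ) 2, ← Real.rpow_mul hNR0.le]
      norm_num
    have e3 : Real.log ((N : ℝ) ^ 2) = 2 * Real.log N := by
      rw [Real.log_pow]
      norm_num
    rw [e1, e2, e3] at hden
    calc 6 * ∑ q ∈ Icc 1 M, 1 / ((r q).den : ℝ)
        ≤ 6 * (M * (Cd * (N : ℝ) ^ (2 * τ) * ((1 + 2 * Real.log N) /
          ((c0 / 2) ^ s * (N : ℝ) ^ s)))) := by linarith
      _ ≤ 6 * ((N : ℝ) ^ κ * (Cd * (N : ℝ) ^ (2 * τ) * ((1 + 2 * Real.log N) /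
          ((c0 / 2) ^ s * (N : ℝ) ^ s)))) := by
          gcongr
      _ = (A * (1 + 2 * Real.log N)) * ((N : ℝ) ^ κ * (N : ℝ) ^ (2 * τ) / (N : ℝ) ^ s) := by
          rw [hA]
          field_simp
      _ ≤ (η / 2 * (N : ℝ) ^ e) * ((N : ℝ) ^ κ * (N : ℝ) ^ (2 * τ) / (N : ℝ) ^ s) := by
          apply mul_le_mul_of_nonneg_right hl (by positivity)
      _ = η / 2 := by
          have h5 : (N : ℝ) ^ e * ((N : ℝ) ^ κ * (N : ℝ) ^ (2 * τ) / (N : ℝ) ^ s) = 1 := by
            rw [← Real.rpow_add hNR0, ← Real.rpow_sub hNR0, ← Real.rpow_add hNR0]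
            have : e + (κ + 2 * τ - s) = 0 := by rw [he]; ring
            rw [this, Real.rpow_zero]
          rw [mul_assoc, h5, mul_one]
  set T : ℕ → Finset ℕ := fun q => (range N).filter
    (fun m : ℕ => ∃ p : ℤ, |(m : ℝ) * ((q : ℝ) * ξ) + q * β - p| ≤ c * w q) with hT
  have hsub : (range N).filter (fun m : ℕ => ∃ (p : ℤ) (q : ℕ), 2 ≤ q ∧ (q : ℝ) ≤ (N : ℝ) ^ κ ∧
        |(m : ℝ) * ξ + β - (p : ℝ) / q| ≤ c * w q / q) ⊆ (Icc 2 M).biUnion T := by
    intro m hm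
    rw [mem_filter] at hm
    obtain ⟨hmN, p, q, hq2, hqκ, hle⟩ := hm
    have hq0 : (0 : ℝ) < q := by
      have : (2 : ℝ) ≤ q := by exact_mod_cast hq2
      linarith
    rw [mem_biUnion]
    refine ⟨q, ?_, ?_⟩
    · rw [mem_Icc]
      exact ⟨hq2, Nat.le_floor hqκ⟩
    · rw [hT]
      simp only [mem_filter]
      refine ⟨hmN, p, ?_⟩
      have e1 : (m : ℝ) * ((q : ℝ) * ξ) + q * β - p = q * ((m : ℝ) * ξ + β - (p : ℝ) / q) := by
        field_simp
      rw [e1, abs_mul, abs_of_pos hq0]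
      calc (q : ℝ) * |(m : ℝ) * ξ + β - (p : ℝ) / q| ≤ q * (c * w q / q) :=
            mul_le_mul_of_nonneg_left hle hq0.le
        _ = c * w q := by field_simp
  have hTcard : ∀ q, ((T q).card : ℝ) ≤ 4 * N * (c * w q) + 6 * ((N : ℝ) / (r q).den) := by
    intro q
    apply count_one ((q : ℝ) * ξ) (q * β) (c * w q) (mul_nonneg hc.le (hw q)) N hN1 (r q)
      (hr q).1 (hr q).2 (T q)
    intro m hm
    rw [hT] at hm
    simp only [mem_filter, mem_range] at hm
    exact hm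
  calc (((range N).filter (fun m : ℕ => ∃ (p : ℤ) (q : ℕ), 2 ≤ q ∧ (q : ℝ) ≤ (N : ℝ) ^ κ ∧
        |(m : ℝ) * ξ + β - (p : ℝ) / q| ≤ c * w q / q)).card : ℝ)
      ≤ (((Icc 2 M).biUnion T).card : ℝ) := by exact_mod_cast card_le_card hsub
    _ ≤ ((∑ q ∈ Icc 2 M, (T q).card : ℕ) : ℝ) := by exact_mod_cast card_biUnion_le
    _ = ∑ q ∈ Icc 2 M, ((T q).card : ℝ) := by push_cast; rfl
    _ ≤ ∑ q ∈ Icc 2 M, (4 * N * (c * w q) + 6 * ((N : ℝ) / (r q).den)) :=
        sum_le_sum fun q _ => hTcard q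
    _ = 4 * c * N * ∑ q ∈ Icc 2 M, w q + 6 * N * ∑ q ∈ Icc 2 M, 1 / ((r q).den : ℝ) := by
        rw [sum_add_distrib, mul_sum, mul_sum]
        congr 1
        · apply sum_congr rfl
          intro q _
          ring
        · apply sum_congr rfl
          intro q _
          ring
    _ ≤ 4 * c * N * Z + 6 * N * ∑ q ∈ Icc 1 M, 1 / ((r q).den : ℝ) := by
        apply add_le_add
        · apply mul_le_mul_of_nonneg_left (hZ M) (by positivity)
        · apply mul_le_mul_of_nonneg_left _ (by positivity)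
          apply sum_le_sum_of_subset_of_nonneg
          · exact Icc_subset_Icc_left (by norm_num)
          · intro q _ _
            positivity
    _ = N * (4 * c * Z) + N * (6 * ∑ q ∈ Icc 1 M, 1 / ((r q).den : ℝ)) := by ring
    _ ≤ N * (η / 2) + N * (η / 2) := by
        apply add_le_add
        · exact mul_le_mul_of_nonneg_left hcZ hNR0.le
        · exact mul_le_mul_of_nonneg_left herr hNR0.le
    _ = η * N := by ring

end Pool.Agent.H49.LM
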